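import Pool.Agent.Q315.FM.Tup
import Pool.Agent.H393R2.DC.Primes

/-!
# All residue patterns of tuples of primes are equally frequent
-/

set_option autoImplicit false

namespace Pool.Agent.Q315.FM

open Finset Filter Topology

/-- the prime numbers up to `x` which are congruent to `1 + 2 ^ m` modulo `2 ^ (m + 1)` -/
def cl (m x : ℕ) : Finset ℕ := (range (x + 1)).filter fun q => q.Prime ∧ q % 2 ^ (m + 1) = 1 + 2 ^ m

lemma cl_lower (m : ℕ) (hm : 1 ≤ m) :
    ∃ c : ℝ, 0 < c ∧ ∃ N0 : ℕ, ∀ N : ℕ, N0 ≤ N → c * N / Real.log N ≤ ((cl m N).card : ℝ) := by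
  have hM : (2 : ℕ) ^ (m + 1) ≠ 0 := by positivity
  have : NeZero ((2 : ℕ) ^ (m + 1)) := ⟨hM⟩
  have hu : IsUnit (((1 + 2 ^ m : ℕ)) : ZMod (2 ^ (m + 1))) := by
    rw [ZMod.isUnit_iff_coprime]
    apply Nat.Coprime.pow_right
    rw [Nat.coprime_two_right]
    have : Even (2 ^ m) := (Nat.even_pow.2 ⟨even_two, by omega⟩)
    exact Odd.add_even odd_one this
  obtain ⟨c, hc, N0, h⟩ := Pool.Agent.H393R2.DC.primes_lower (2 ^ (m + 1)) _ hu
  refine ⟨c, hc, N0, fun N hN => (h N hN).trans ?_⟩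
  have h1 : (range (N + 1)).filter (fun q : ℕ => q.Prime ∧ (q : ZMod (2 ^ (m + 1))) = ((1 + 2 ^ m : ℕ) : ZMod (2 ^ (m + 1)))) ⊆
      cl m N := by
    intro q hq
    rw [mem_filter] at hq
    rw [cl, mem_filter]
    refine ⟨hq.1, hq.2.1, ?_⟩
    have h2 := (ZMod.natCast_eq_natCast_iff' _ _ _).1 hq.2.2
    rw [h2, Nat.mod_eq_of_lt]
    have : 2 ^ (m + 1) = 2 ^ m + 2 ^ m := by ring
    have h3 : 2 ≤ 2 ^ m := by
      calc 2 = 2 ^ 1 := by norm_num
        _ ≤ 2 ^ m := Nat.pow_le_pow_right (by norm_num) hm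
    omega
  exact_mod_cast card_le_card h1

lemma cl_prime {m x l : ℕ} (hm : 1 ≤ m) (hl : l ∈ cl m x) : l.Prime ∧ l ≠ 2 ∧ l ≤ x := by
  rw [cl, mem_filter, mem_range] at hl
  refine ⟨hl.2.1, ?_, by omega⟩
  rintro rfl
  have h3 : 2 ≤ 2 ^ m := by
    calc 2 = 2 ^ 1 := by norm_num
      _ ≤ 2 ^ m := Nat.pow_le_pow_right (by norm_num) hm
  have h4 : 2 ^ (m + 1) = 2 ^ m + 2 ^ m := by ring
  have h5 := hl.2.2
  rw [Nat.mod_eq_of_lt (by omega)] at h5
  omega

lemma growth : Tendsto (fun N : ℕ => (N : ℝ) / Real.log N) atTop atTop := by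
  have h1 : Tendsto (fun x : ℝ => Real.log x / x) atTop (𝓝 0) := by
    have := Real.isLittleO_log_id_atTop
    exact this.tendsto_div_nhds_zero
  have h2 : Tendsto (fun x : ℝ => (Real.log x / x)⁻¹) atTop atTop := by
    apply Tendsto.inv_tendsto_nhdsGT_zero
    rw [tendsto_nhdsWithin_iff]
    refine ⟨h1, ?_⟩
    filter_upwards [eventually_gt_atTop 1] with x hx
    exact div_pos (Real.log_pos hx) (by linarith)
  have h3 := h2.comp (tendsto_natCast_atTop_atTop (R := ℝ))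
  refine h3.congr fun N => ?_
  simp [Function.comp, inv_div]

/-- the bound of the bilinear estimate -/
noncomputable def bd (N : ℕ) : ℝ := (768 * (N : ℝ) ^ 15) ^ (1 / 8 : ℝ)

lemma bilinear' (N : ℕ) (hN : 1 ≤ N) (P : Finset ℕ) (hP : ∀ l ∈ P, l.Prime ∧ l ≠ 2 ∧ l ≤ N) (a b : ℕ → ℝ)
    (ha : ∀ m, |a m| ≤ 1) (hb : ∀ n, |b n| ≤ 1) : |∑ m ∈ P, ∑ n ∈ P, a m * b n * J m n| ≤ bd N := by
  have h := bilinear N hN P hP a b ha hb
  set s := |∑ m ∈ P, ∑ n ∈ P, a m * b n * J m n| with hs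
  have h0 : 0 ≤ s := abs_nonneg _
  have h1 : s ^ 8 ≤ 768 * (N : ℝ) ^ 15 := by
    rw [hs, Even.pow_abs (by decide : Even 8)]
    exact h
  have h2 : s = (s ^ 8) ^ (1 / 8 : ℝ) := by
    rw [← Real.rpow_natCast, ← Real.rpow_mul h0]
    norm_num
  rw [h2]
  exact Real.rpow_le_rpow (by positivity) h1 (by norm_num)

lemma bd_small (m : ℕ) (hm : 1 ≤ m) (ε : ℝ) (hε : 0 < ε) : ∀ᶠ N : ℕ in atTop, bd N ≤ ε * ((cl m N).card : ℝ) ^ 2 := by
  obtain ⟨c, hc, N0, h⟩ := cl_lower m hm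
  -- `log N ^ 16 / N` tends to zero
  have h1 : Tendsto (fun x : ℝ => Real.log x ^ 16 / x) atTop (𝓝 0) := by
    have := isLittleO_log_rpow_rpow_atTop (16 : ℝ) (one_pos : (0 : ℝ) < 1)
    have h2 := this.tendsto_div_nhds_zero
    refine h2.congr' ?_
    filter_upwards [eventually_gt_atTop 0] with x hx
    rw [Real.rpow_one]
    norm_cast
  have h2 := h1.comp (tendsto_natCast_atTop_atTop (R := ℝ))
  have hδ : 0 < ε ^ 8 * c ^ 16 / 768 := by positivity
  filter_upwards [h2.eventually_lt_const hδ, eventually_ge_atTop N0, eventually_ge_atTop 3] with N hN1 hN2 hN3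
  have hN : (0 : ℝ) < N := by exact_mod_cast (by omega : 0 < N)
  have hlog : 0 < Real.log N := Real.log_pos (by exact_mod_cast (by omega : 1 < N))
  simp only [Function.comp] at hN1
  rw [div_lt_iff₀ hN] at hN1
  have h3 := h N hN2
  have h4 : ε * (c * N / Real.log N) ^ 2 ≤ ε * ((cl m N).card : ℝ) ^ 2 :=
    mul_le_mul_of_nonneg_left (pow_le_pow_left₀ (by positivity) h3 2) hε.le
  refine le_trans ?_ h4
  have h5 : 768 * (N : ℝ) ^ 15 ≤ (ε * (c * N / Real.log N) ^ 2) ^ 8 := by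
    have e1 : (ε * (c * N / Real.log N) ^ 2) ^ 8 = ε ^ 8 * c ^ 16 * (N : ℝ) ^ 16 / Real.log N ^ 16 := by
      field_simp
    rw [e1, le_div_iff₀ (by positivity)]
    have e2 : 768 * (N : ℝ) ^ 15 * Real.log N ^ 16 ≤ 768 * (N : ℝ) ^ 15 * (ε ^ 8 * c ^ 16 / 768 * N) :=
      mul_le_mul_of_nonneg_left hN1.le (by positivity)
    refine e2.trans (le_of_eq ?_)
    ring
  have h6 : 0 ≤ ε * (c * N / Real.log N) ^ 2 := by positivity
  calc bd N ≤ ((ε * (c * N / Real.log N) ^ 2) ^ 8) ^ (1 / 8 : ℝ) :=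
        Real.rpow_le_rpow (by positivity) h5 (by norm_num)
    _ = ε * (c * N / Real.log N) ^ 2 := by
        rw [← Real.rpow_natCast, ← Real.rpow_mul h6]
        norm_num

open Classical in
/-- **Every pattern has at least the expected frequency.** -/
theorem pattern_freq (m k : ℕ) (hm : 1 ≤ m) (G : Finset (Fin k × Fin k)) (ε : ℝ) (hε : 0 < ε) :
    ∀ᶠ x : ℕ in atTop, (1 / 2 ^ (pairs k).card - ε) * ((cl m x).card : ℝ) ^ k ≤
      (((tup k (cl m x)).filter fun t => Function.Injective t ∧ Pattern G t).card : ℝ) := by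
  obtain ⟨c, hc, N0, h⟩ := cl_lower m hm
  have hg : Tendsto (fun N : ℕ => ((cl m N).card : ℝ)) atTop atTop := by
    have h1 : Tendsto (fun N : ℕ => c * ((N : ℝ) / Real.log N)) atTop atTop := growth.const_mul_atTop hc
    refine tendsto_atTop_mono' atTop ?_ h1
    filter_upwards [eventually_ge_atTop N0] with N hN
    rw [← mul_div_assoc]
    exact h N hN
  filter_upwards [bd_small m hm (ε / 2) (by positivity), hg.eventually_ge_atTop (2 * (k : ℝ) ^ 2 / ε + 1),
    eventually_ge_atTop 1] with x hx1 hx2 hx3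
  set P := cl m x with hP
  have hc1 : (0 : ℝ) < P.card := by
    have : (0 : ℝ) ≤ 2 * (k : ℝ) ^ 2 / ε := by positivity
    linarith
  have hne : P.Nonempty := card_pos.1 (by exact_mod_cast hc1)
  have h1 := pattern_lower k P (fun l hl => (cl_prime hm hl).1) (bd x)
    (fun a b ha hb => bilinear' x hx3 P (fun l hl => cl_prime hm hl) a b ha hb) hne G
  refine le_trans ?_ h1
  have h2 : bd x / (P.card : ℝ) ^ 2 ≤ ε / 2 := by
    rw [div_le_iff₀ (by positivity)]
    exact hx1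
  have h3 : (k : ℝ) ^ 2 / P.card ≤ ε / 2 := by
    rw [div_le_iff₀ hc1]
    have h4 : 2 * (k : ℝ) ^ 2 / ε ≤ P.card := by linarith
    rw [div_le_iff₀ hε] at h4
    linarith
  have hpk : (0 : ℝ) ≤ (P.card : ℝ) ^ k := by positivity
  have h5 := mul_le_mul_of_nonneg_right h2 hpk
  have h6 := mul_le_mul_of_nonneg_right h3 hpk
  have h7 : (1 / 2 ^ (pairs k).card - ε) * (P.card : ℝ) ^ k =
      (P.card : ℝ) ^ k / 2 ^ (pairs k).card - ε / 2 * (P.card : ℝ) ^ k - ε / 2 * (P.card : ℝ) ^ k := by ring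
  rw [h7]
  linarith

open Classical in
/-- **Sets of patterns.** -/
theorem patterns_freq (m k : ℕ) (hm : 1 ≤ m) (GG : Finset (Finset (Fin k × Fin k))) (hGG : ∀ G ∈ GG, G ⊆ pairs k)
    (ε : ℝ) (hε : 0 < ε) :
    ∀ᶠ x : ℕ in atTop, ((GG.card : ℝ) / 2 ^ (pairs k).card - ε) * ((cl m x).card : ℝ) ^ k ≤
      (((tup k (cl m x)).filter fun t => Function.Injective t ∧ ∃ G ∈ GG, Pattern G t).card : ℝ) := by
  have h1 : ∀ᶠ x : ℕ in atTop, ∀ G ∈ GG, (1 / 2 ^ (pairs k).card - ε / (GG.card + 1)) * ((cl m x).card : ℝ) ^ k ≤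
      (((tup k (cl m x)).filter fun t => Function.Injective t ∧ Pattern G t).card : ℝ) := by
    rw [eventually_all_finset]
    intro G _
    exact pattern_freq m k hm G _ (by positivity)
  filter_upwards [h1] with x hx
  have h2 : (GG.biUnion fun G => (tup k (cl m x)).filter fun t => Function.Injective t ∧ Pattern G t) ⊆
      (tup k (cl m x)).filter fun t => Function.Injective t ∧ ∃ G ∈ GG, Pattern G t := by
    intro t ht
    rw [mem_biUnion] at ht
    obtain ⟨G, hG, ht⟩ := ht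
    rw [mem_filter] at ht ⊢
    exact ⟨ht.1, ht.2.1, G, hG, ht.2.2⟩
  have h3 : (GG.biUnion fun G => (tup k (cl m x)).filter fun t => Function.Injective t ∧ Pattern G t).card =
      ∑ G ∈ GG, ((tup k (cl m x)).filter fun t => Function.Injective t ∧ Pattern G t).card := by
    apply card_biUnion
    intro G hG G' hG' hne
    show Disjoint _ _
    rw [disjoint_left]
    intro t ht ht'
    apply hne
    rw [mem_filter] at ht ht'
    ext e
    by_cases he : e ∈ pairs k
    · have e1 := ht.2.2 e he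
      have e2 := ht'.2.2 e he
      rw [e1] at e2
      unfold sg at e2
      by_cases g1 : e ∈ G <;> by_cases g2 : e ∈ G' <;> simp only [g1, g2, if_true, if_false] at e2 ⊢
      · norm_num at e2
      · norm_num at e2
    · exact ⟨fun h => absurd (hGG G hG h) he, fun h => absurd (hGG G' hG' h) he⟩
  have h4 : ∑ G ∈ GG, (1 / 2 ^ (pairs k).card - ε / (GG.card + 1)) * ((cl m x).card : ℝ) ^ k ≤
      (((tup k (cl m x)).filter fun t => Function.Injective t ∧ ∃ G ∈ GG, Pattern G t).card : ℝ) := by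
    calc _ ≤ ∑ G ∈ GG, (((tup k (cl m x)).filter fun t => Function.Injective t ∧ Pattern G t).card : ℝ) := sum_le_sum hx
      _ = ((GG.biUnion fun G => (tup k (cl m x)).filter fun t => Function.Injective t ∧ Pattern G t).card : ℝ) := by
          rw [h3]; push_cast; rfl
      _ ≤ _ := by exact_mod_cast card_le_card h2
  refine le_trans ?_ h4
  rw [sum_const, nsmul_eq_mul, ← mul_assoc]
  apply mul_le_mul_of_nonneg_right _ (by positivity)
  rw [mul_sub, mul_one_div]
  have h5 : (GG.card : ℝ) * (ε / (GG.card + 1)) ≤ ε := by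
    rw [mul_div_assoc', div_le_iff₀ (by positivity)]
    nlinarith
  linarith

end Pool.Agent.Q315.FM
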