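import Pool.Agent.Q315.FM.Row
import Pool.Agent.Q315.FM.Dens

/-!
# Counting tuples of primes with sparse rows, and triples
-/

set_option autoImplicit false

namespace Pool.Agent.Q315.FM

open Finset Filter Topology

open Classical in
/-- The set of the prime numbers `l ≤ x` with `p ^ m ∣ l - 1` and `p ^ (m + 1) ∤ l - 1`. -/
noncomputable def clp (p m x : ℕ) : Finset ℕ := (range (x + 1)).filter fun l => l.Prime ∧ p ^ m ∣ l - 1 ∧ ¬ p ^ (m + 1) ∣ l - 1

lemma mem_clp {p m x l : ℕ} : l ∈ clp p m x ↔ l ≤ x ∧ l.Prime ∧ p ^ m ∣ l - 1 ∧ ¬ p ^ (m + 1) ∣ l - 1 := by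
  classical
  rw [clp, mem_filter, mem_range, Nat.lt_succ_iff]

lemma clp_lower (p m : ℕ) (hp : p.Prime) (hm : 1 ≤ m) :
    ∃ c : ℝ, 0 < c ∧ ∃ N0 : ℕ, ∀ N : ℕ, N0 ≤ N → c * N / Real.log N ≤ ((clp p m N).card : ℝ) := by
  classical
  have hM : p ^ (m + 1) ≠ 0 := pow_ne_zero _ hp.ne_zero
  have : NeZero (p ^ (m + 1)) := ⟨hM⟩
  have hu : IsUnit (((1 + p ^ m : ℕ)) : ZMod (p ^ (m + 1))) := by
    rw [ZMod.isUnit_iff_coprime]
    apply Nat.Coprime.pow_right
    rw [Nat.coprime_comm, hp.coprime_iff_not_dvd]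
    intro h
    have h1 : p ∣ p ^ m := dvd_pow_self p (by omega)
    exact hp.one_lt.ne' (Nat.dvd_one.1 ((Nat.dvd_add_left h1).1 h))
  obtain ⟨c, hc, N0, h⟩ := Pool.Agent.H393R2.DC.primes_lower (p ^ (m + 1)) _ hu
  refine ⟨c, hc, N0, fun N hN => (h N hN).trans ?_⟩
  have h1 : (range (N + 1)).filter (fun q : ℕ => q.Prime ∧ (q : ZMod (p ^ (m + 1))) = ((1 + p ^ m : ℕ) : ZMod (p ^ (m + 1)))) ⊆
      clp p m N := by
    intro q hq
    rw [mem_filter, mem_range] at hq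
    rw [mem_clp]
    have h2 := (ZMod.natCast_eq_natCast_iff _ _ _).1 hq.2.2
    have h3 : (p ^ (m + 1)) ∣ p ^ (m + 1) := dvd_rfl
    have h4 : q - 1 ≡ p ^ m [MOD p ^ (m + 1)] := by
      have h5 : (q - 1) + 1 ≡ p ^ m + 1 [MOD p ^ (m + 1)] := by
        rw [Nat.sub_add_cancel hq.2.1.one_le, add_comm (p ^ m)]
        exact h2
      exact Nat.ModEq.add_right_cancel' 1 h5
    refine ⟨by omega, hq.2.1, ?_, ?_⟩
    · have h6 : p ^ m ∣ p ^ (m + 1) := pow_dvd_pow p (by omega)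
      exact ((h4.of_dvd h6).dvd_iff dvd_rfl).2 dvd_rfl
    · intro h7
      have h8 := (h4.dvd_iff dvd_rfl).1 h7
      have h9 := (Nat.pow_dvd_pow_iff_le_right hp.one_lt).1 h8
      omega
  exact_mod_cast card_le_card h1

lemma clp_tendsto (p m : ℕ) (hp : p.Prime) (hm : 1 ≤ m) : Tendsto (fun N : ℕ => ((clp p m N).card : ℝ)) atTop atTop := by
  obtain ⟨c, hc, N0, h⟩ := clp_lower p m hp hm
  have h1 : Tendsto (fun N : ℕ => c * ((N : ℝ) / Real.log N)) atTop atTop := growth.const_mul_atTop hc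
  refine tendsto_atTop_mono' atTop ?_ h1
  filter_upwards [eventually_ge_atTop N0] with N hN
  rw [← mul_div_assoc]
  exact h N hN

lemma bo_small (p m : ℕ) (hp : p.Prime) (hm : 1 ≤ m) (ε : ℝ) (hε : 0 < ε) :
    ∀ᶠ N : ℕ in atTop, bo N ≤ ε * ((clp p m N).card : ℝ) ^ 2 := by
  obtain ⟨c, hc, N0, h⟩ := clp_lower p m hp hm
  have h1 : ∀ k : ℕ, Tendsto (fun x : ℝ => Real.log x ^ k / x) atTop (𝓝 0) := by
    intro k
    have := isLittleO_log_rpow_rpow_atTop (k : ℝ) (one_pos : (0 : ℝ) < 1)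
    have h2 := this.tendsto_div_nhds_zero
    refine h2.congr' ?_
    filter_upwards [eventually_gt_atTop 0] with x hx
    rw [Real.rpow_one, Real.rpow_natCast]
  have h2 := (h1 8).comp (tendsto_natCast_atTop_atTop (R := ℝ))
  have h2' := (h1 2).comp (tendsto_natCast_atTop_atTop (R := ℝ))
  have hδ : 0 < (ε / 2) ^ 4 * c ^ 8 / 48 := by positivity
  have hδ' : 0 < (ε / 2) * c ^ 2 := by positivity
  filter_upwards [h2.eventually_lt_const hδ, h2'.eventually_lt_const hδ', eventually_ge_atTop N0, eventually_ge_atTop 3]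
    with N hN1 hN1' hN2 hN3
  have hN : (0 : ℝ) < N := by exact_mod_cast (by omega : 0 < N)
  have hlog : 0 < Real.log N := Real.log_pos (by exact_mod_cast (by omega : 1 < N))
  simp only [Function.comp] at hN1 hN1'
  rw [div_lt_iff₀ hN] at hN1 hN1'
  have h3 := h N hN2
  have h4 : (c * N / Real.log N) ^ 2 ≤ ((clp p m N).card : ℝ) ^ 2 := pow_le_pow_left₀ (by positivity) h3 2
  have h5 : 48 * (N : ℝ) ^ 7 ≤ (ε / 2 * (c * N / Real.log N) ^ 2) ^ 4 := by
    have e1 : (ε / 2 * (c * N / Real.log N) ^ 2) ^ 4 = (ε / 2) ^ 4 * c ^ 8 * (N : ℝ) ^ 8 / Real.log N ^ 8 := by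
      field_simp
    rw [e1, le_div_iff₀ (by positivity)]
    have e2 : 48 * (N : ℝ) ^ 7 * Real.log N ^ 8 ≤ 48 * (N : ℝ) ^ 7 * ((ε / 2) ^ 4 * c ^ 8 / 48 * N) :=
      mul_le_mul_of_nonneg_left hN1.le (by positivity)
    refine e2.trans (le_of_eq ?_)
    ring
  have h6 : 0 ≤ ε / 2 * (c * N / Real.log N) ^ 2 := by positivity
  have h7 : (48 * (N : ℝ) ^ 7) ^ (1 / 4 : ℝ) ≤ ε / 2 * (c * N / Real.log N) ^ 2 := by
    calc (48 * (N : ℝ) ^ 7) ^ (1 / 4 : ℝ) ≤ ((ε / 2 * (c * N / Real.log N) ^ 2) ^ 4) ^ (1 / 4 : ℝ) :=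
        Real.rpow_le_rpow (by positivity) h5 (by norm_num)
      _ = ε / 2 * (c * N / Real.log N) ^ 2 := by
        rw [← Real.rpow_natCast, ← Real.rpow_mul h6]
        norm_num
  have h8 : (N : ℝ) ≤ ε / 2 * (c * N / Real.log N) ^ 2 := by
    have e1 : ε / 2 * (c * N / Real.log N) ^ 2 = ε / 2 * c ^ 2 * (N : ℝ) ^ 2 / Real.log N ^ 2 := by
      field_simp
    rw [e1, le_div_iff₀ (by positivity)]
    have e2 : (N : ℝ) * Real.log N ^ 2 ≤ N * (ε / 2 * c ^ 2 * N) := mul_le_mul_of_nonneg_left hN1'.le hN.le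
    refine e2.trans (le_of_eq ?_)
    ring
  unfold bo
  have h9 : ε / 2 * (c * N / Real.log N) ^ 2 ≤ ε / 2 * ((clp p m N).card : ℝ) ^ 2 :=
    mul_le_mul_of_nonneg_left h4 (by positivity)
  linarith

section
variable {p : ℕ} [hp : Fact p.Prime]

/-- **Equidistribution of rows, asymptotic form.** -/
theorem rows_small (m : ℕ) (hm : 1 ≤ m) (χ : ∀ j : ℕ, (ZMod j)ˣ →* Multiplicative (ZMod p))
    (hχ : ∀ l : ℕ, l.Prime → p ∣ l - 1 → ∃ x, χ l x ≠ 1) (k : ℕ) (δ : ℝ) (hδ : 0 < δ) :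
    ∀ᶠ x : ℕ in atTop, ∀ 𝒜 ⊆ clp p m x, ∀ R : (Fin k → ℕ) → Finset (Fin k → ZMod p),
      ∑ s ∈ tup k (clp p m x), |((𝒜.filter fun a => row χ s a ∈ R s).card : ℝ) - ((R s).card : ℝ) / (p : ℝ) ^ k * 𝒜.card| ≤
        δ * ((clp p m x).card : ℝ) ^ (k + 1) := by
  classical
  have hp0 : (0 : ℝ) < (p : ℝ) ^ k := by have := hp.out.pos; positivity
  filter_upwards [bo_small p m hp.out hm (δ / (p : ℝ) ^ k) (by positivity),
    (clp_tendsto p m hp.out hm).eventually_gt_atTop 0] with x h1 h2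
  intro 𝒜 hA R
  have hP : ∀ l ∈ clp p m x, l.Prime ∧ l ≤ x := fun l hl => ⟨(mem_clp.1 hl).2.1, (mem_clp.1 hl).1⟩
  have hχ' : ∀ j ∈ clp p m x, ∃ y, χ j y ≠ 1 := fun j hj =>
    hχ j (mem_clp.1 hj).2.1 ((dvd_pow_self p (by omega)).trans (mem_clp.1 hj).2.2.1)
  have h3 := rows x (clp p m x) hP χ hχ' 𝒜 hA R
  have h4 : (p : ℝ) ^ k * (((clp p m x).card : ℝ) ^ k * bo x) ≤ (clp p m x).card * (δ * ((clp p m x).card : ℝ) ^ (k + 1)) := by
    calc (p : ℝ) ^ k * (((clp p m x).card : ℝ) ^ k * bo x) ≤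
          (p : ℝ) ^ k * (((clp p m x).card : ℝ) ^ k * (δ / (p : ℝ) ^ k * ((clp p m x).card : ℝ) ^ 2)) := by
          apply mul_le_mul_of_nonneg_left _ hp0.le
          exact mul_le_mul_of_nonneg_left h1 (by positivity)
      _ = (clp p m x).card * (δ * ((clp p m x).card : ℝ) ^ (k + 1)) := by
          field_simp
          ring
  exact le_of_mul_le_mul_left (h3.trans h4) h2

lemma cons_count (k : ℕ) (P : Finset ℕ) (G : (Fin k → ℕ) → Prop) (Q : ℕ → (Fin k → ℕ) → Prop) [DecidablePred G]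
    [∀ s, DecidablePred fun a => Q a s] [DecidablePred fun t : Fin (k + 1) → ℕ => G (Fin.tail t) ∧ Q (t 0) (Fin.tail t)] :
    ((tup (k + 1) P).filter fun t => G (Fin.tail t) ∧ Q (t 0) (Fin.tail t)).card =
      ∑ s ∈ (tup k P).filter G, (P.filter fun a => Q a s).card := by
  classical
  rw [← card_sigma]
  refine card_nbij' (fun t => ⟨Fin.tail t, t 0⟩) (fun z => Fin.cons z.2 z.1) ?_ ?_ ?_ ?_
  · intro t ht
    simp only [coe_filter, Set.mem_ofPred_eq, mem_tup] at ht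
    simp only [mem_coe, mem_sigma, mem_filter, mem_tup]
    exact ⟨⟨fun i => ht.1 _, ht.2.1⟩, ht.1 0, ht.2.2⟩
  · intro z hz
    simp only [mem_coe, mem_sigma, mem_filter, mem_tup] at hz
    simp only [coe_filter, Set.mem_ofPred_eq, mem_tup]
    refine ⟨fun i => ?_, ?_⟩
    · refine Fin.cases ?_ (fun i => ?_) i
      · exact hz.2.1
      · exact hz.1.1 i
    · rw [Fin.tail_cons, Fin.cons_zero]
      exact ⟨hz.1.2, hz.2.2⟩
  · intro t _
    exact Fin.cons_self_tail t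
  · intro z _
    simp

/-- the rows with at most one nonzero entry -/
noncomputable def Rsp (p : ℕ) [Fact p.Prime] (k : ℕ) : Finset (Fin k → ZMod p) :=
  open Classical in univ.filter fun v => {j | v j ≠ 0}.Subsingleton

lemma card_Rsp (k : ℕ) : 1 + k * (p - 1) ≤ (Rsp p k).card := by
  classical
  set I : Finset (Fin k → ZMod p) := ((univ : Finset (Fin k)) ×ˢ (univ.erase (0 : ZMod p))).image fun z => Pi.single z.1 z.2 with hI
  have hIc : I.card = k * (p - 1) := by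
    rw [hI, card_image_of_injOn, card_product, card_univ, Fintype.card_fin, card_erase_of_mem (mem_univ _), card_univ, ZMod.card]
    rintro ⟨i, z⟩ hz ⟨i', z'⟩ hz' h
    simp only [mem_coe, mem_product, mem_erase, mem_univ, true_and, and_true] at hz hz'
    simp only at h
    have h1 := congrFun h i
    rw [Pi.single_eq_same] at h1
    by_cases hii : i = i'
    · subst hii
      rw [Pi.single_eq_same] at h1
      rw [h1]
    · rw [Pi.single_eq_of_ne hii] at h1
      exact absurd h1 hz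
  have h0 : (0 : Fin k → ZMod p) ∉ I := by
    rw [hI, mem_image]
    rintro ⟨⟨i, z⟩, hz, h⟩
    simp only [mem_product, mem_erase, mem_univ, true_and, and_true] at hz
    have h1 := congrFun h i
    simp only [Pi.single_eq_same, Pi.zero_apply] at h1
    exact hz h1
  rw [← hIc, add_comm, ← card_insert_of_notMem h0]
  apply card_le_card
  intro v hv
  rw [Rsp, mem_filter]
  refine ⟨mem_univ _, ?_⟩
  rcases mem_insert.1 hv with rfl | hv
  · intro i hi
    exact absurd rfl hi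
  · rw [hI, mem_image] at hv
    obtain ⟨⟨i, z⟩, _, rfl⟩ := hv
    intro a ha b hb
    have h1 : ∀ c, (Pi.single i z : Fin k → ZMod p) c ≠ 0 → c = i := by
      intro c hc
      by_contra h
      exact hc (by rw [Pi.single_apply, if_neg h])
    rw [h1 a ha, h1 b hb]

/-- every row of the tuple has at most one nonzero entry to the right of the diagonal -/
def SparseT (χ : ∀ j : ℕ, (ZMod j)ˣ →* Multiplicative (ZMod p)) {k : ℕ} (t : Fin k → ℕ) : Prop :=
  ∀ i, {j | i < j ∧ lk χ (t i) (t j) ≠ 0}.Subsingleton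

lemma sparse_of_tail (χ : ∀ j : ℕ, (ZMod j)ˣ →* Multiplicative (ZMod p)) {k : ℕ} (t : Fin (k + 1) → ℕ)
    (h1 : SparseT χ (Fin.tail t)) (h2 : row χ (Fin.tail t) (t 0) ∈ Rsp p k) : SparseT χ t := by
  classical
  intro i
  refine Fin.cases ?_ (fun i => ?_) i
  · rintro a ⟨ha, ha'⟩ b ⟨hb, hb'⟩
    obtain ⟨a, rfl⟩ := Fin.exists_succ_eq.2 (ne_of_gt ha)
    obtain ⟨b, rfl⟩ := Fin.exists_succ_eq.2 (ne_of_gt hb)
    rw [Rsp, mem_filter] at h2
    exact congrArg Fin.succ (h2.2 (show row χ (Fin.tail t) (t 0) a ≠ 0 from ha') (show row χ (Fin.tail t) (t 0) b ≠ 0 from hb'))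
  · rintro a ⟨ha, ha'⟩ b ⟨hb, hb'⟩
    obtain ⟨a, rfl⟩ := Fin.exists_succ_eq.2 (ne_of_gt ((Fin.succ_pos i).trans ha))
    obtain ⟨b, rfl⟩ := Fin.exists_succ_eq.2 (ne_of_gt ((Fin.succ_pos i).trans hb))
    rw [Fin.succ_lt_succ_iff] at ha hb
    exact congrArg Fin.succ (h1 i ⟨ha, ha'⟩ ⟨hb, hb'⟩)

lemma inj_of_tail {k : ℕ} (t : Fin (k + 1) → ℕ) (h1 : Function.Injective (Fin.tail t)) (h2 : t 0 ∉ Set.range (Fin.tail t)) :
    Function.Injective t := by
  rw [← Fin.cons_self_tail t, Fin.cons_injective_iff]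
  exact ⟨h2, h1⟩

/-- the proportion -/
noncomputable def prp (p k : ℕ) : ℝ := ∏ i ∈ range k, (1 + i * (p - 1)) / (p : ℝ) ^ i

lemma factor_le (k : ℕ) : (1 + k * ((p : ℝ) - 1)) / (p : ℝ) ^ k ≤ 1 := by
  have hp1 : (1 : ℝ) ≤ p := by exact_mod_cast hp.out.one_le
  rw [div_le_one (by positivity)]
  have := one_add_mul_sub_le_pow (a := (p : ℝ)) (by linarith) k
  linarith

open Classical in
/-- **One more prime with a sparse row.** -/
theorem step (m : ℕ) (hm : 1 ≤ m) (χ : ∀ j : ℕ, (ZMod j)ˣ →* Multiplicative (ZMod p))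
    (hχ : ∀ l : ℕ, l.Prime → p ∣ l - 1 → ∃ x, χ l x ≠ 1) (k : ℕ) (G : (Fin k → ℕ) → Prop) (G' : (Fin (k + 1) → ℕ) → Prop)
    (hG : ∀ t : Fin (k + 1) → ℕ, G (Fin.tail t) → row χ (Fin.tail t) (t 0) ∈ Rsp p k → t 0 ∉ Set.range (Fin.tail t) → G' t)
    (β : ℝ) (ih : ∀ ε : ℝ, 0 < ε → ∀ᶠ x : ℕ in atTop, (β - ε) * ((clp p m x).card : ℝ) ^ k ≤
      (((tup k (clp p m x)).filter G).card : ℝ)) (ε : ℝ) (hε : 0 < ε) :
    ∀ᶠ x : ℕ in atTop, (β * ((1 + k * ((p : ℝ) - 1)) / (p : ℝ) ^ k) - ε) * ((clp p m x).card : ℝ) ^ (k + 1) ≤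
      (((tup (k + 1) (clp p m x)).filter G').card : ℝ) := by
  filter_upwards [ih (ε / 4) (by positivity), rows_small m hm χ hχ k (ε / 4) (by positivity),
    (clp_tendsto p m hp.out hm).eventually_ge_atTop (4 * k / ε), (clp_tendsto p m hp.out hm).eventually_gt_atTop 0]
    with x h1 h2 h3 h0
  set P := clp p m x with hP
  set Gd := (tup k P).filter G with hGd
  set c : ℝ := (1 + k * ((p : ℝ) - 1)) / (p : ℝ) ^ k with hc
  have hp1 : (1 : ℝ) ≤ p := by exact_mod_cast hp.out.one_le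
  have hc0 : 0 ≤ c := by
    rw [hc]
    have : 0 ≤ (p : ℝ) - 1 := by linarith
    positivity
  have hc1 : c ≤ 1 := factor_le k
  have hcR : c ≤ ((Rsp p k).card : ℝ) / (p : ℝ) ^ k := by
    rw [hc]
    apply div_le_div_of_nonneg_right _ (by positivity)
    have := card_Rsp (p := p) k
    have h4 : ((1 + k * (p - 1) : ℕ) : ℝ) ≤ ((Rsp p k).card : ℝ) := by exact_mod_cast this
    push_cast [Nat.cast_sub hp.out.one_le] at h4
    exact h4
  -- the count
  have h5 : (∑ s ∈ Gd, (P.filter fun a => row χ s a ∈ Rsp p k ∧ a ∉ Set.range s).card) ≤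
      ((tup (k + 1) P).filter G').card := by
    rw [hGd, ← cons_count k P G (fun a s => row χ s a ∈ Rsp p k ∧ a ∉ Set.range s)]
    apply card_le_card
    intro t ht
    rw [mem_filter] at ht ⊢
    exact ⟨ht.1, hG t ht.2.1 ht.2.2.1 ht.2.2.2⟩
  have h6 : ∀ s : Fin k → ℕ, c * P.card -
      |((P.filter fun a => row χ s a ∈ Rsp p k).card : ℝ) - ((Rsp p k).card : ℝ) / (p : ℝ) ^ k * P.card| - k ≤
      ((P.filter fun a => row χ s a ∈ Rsp p k ∧ a ∉ Set.range s).card : ℝ) := by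
    intro s
    have e1 : (P.filter fun a => row χ s a ∈ Rsp p k).card ≤
        (P.filter fun a => row χ s a ∈ Rsp p k ∧ a ∉ Set.range s).card + k := by
      have e2 : P.filter (fun a => row χ s a ∈ Rsp p k) ⊆
          (P.filter fun a => row χ s a ∈ Rsp p k ∧ a ∉ Set.range s) ∪ univ.image s := by
        intro a ha
        rw [mem_filter] at ha
        by_cases has : a ∈ Set.range s
        · obtain ⟨i, rfl⟩ := has
          exact mem_union_right _ (mem_image_of_mem s (mem_univ i))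
        · exact mem_union_left _ (mem_filter.2 ⟨ha.1, ha.2, has⟩)
      refine (card_le_card e2).trans ((card_union_le _ _).trans ?_)
      have e3 : (univ.image s).card ≤ k := card_image_le.trans (by rw [card_univ, Fintype.card_fin])
      omega
    have e4 : ((P.filter fun a => row χ s a ∈ Rsp p k).card : ℝ) ≤
        ((P.filter fun a => row χ s a ∈ Rsp p k ∧ a ∉ Set.range s).card : ℝ) + k := by exact_mod_cast e1
    have e5 := neg_abs_le (((P.filter fun a => row χ s a ∈ Rsp p k).card : ℝ) - ((Rsp p k).card : ℝ) / (p : ℝ) ^ k * P.card)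
    have e6 : c * P.card ≤ ((Rsp p k).card : ℝ) / (p : ℝ) ^ k * P.card := mul_le_mul_of_nonneg_right hcR (Nat.cast_nonneg _)
    linarith
  have h7 : ∑ s ∈ Gd, |((P.filter fun a => row χ s a ∈ Rsp p k).card : ℝ) - ((Rsp p k).card : ℝ) / (p : ℝ) ^ k * P.card| ≤
      ε / 4 * (P.card : ℝ) ^ (k + 1) :=
    (sum_le_sum_of_subset_of_nonneg (filter_subset _ _) fun _ _ _ => abs_nonneg _).trans
      (h2 P (Subset.refl _) fun _ => Rsp p k)
  have h8 : (Gd.card : ℝ) * (c * P.card) - ε / 4 * (P.card : ℝ) ^ (k + 1) - Gd.card * k ≤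
      (((tup (k + 1) P).filter G').card : ℝ) := by
    have e1 : ((∑ s ∈ Gd, (P.filter fun a => row χ s a ∈ Rsp p k ∧ a ∉ Set.range s).card : ℕ) : ℝ) ≤
        (((tup (k + 1) P).filter G').card : ℝ) := by exact_mod_cast h5
    refine le_trans ?_ e1
    push_cast
    refine le_trans ?_ (sum_le_sum fun s _ => h6 s)
    rw [sum_sub_distrib, sum_sub_distrib, sum_const, sum_const, nsmul_eq_mul, nsmul_eq_mul]
    linarith
  have hGc : (Gd.card : ℝ) ≤ (P.card : ℝ) ^ k := by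
    have : Gd.card ≤ P.card ^ k := by rw [← card_tup]; exact card_le_card (filter_subset _ _)
    exact_mod_cast this
  have h9 : (Gd.card : ℝ) * k ≤ ε / 4 * (P.card : ℝ) ^ (k + 1) := by
    rw [div_le_iff₀ hε] at h3
    calc (Gd.card : ℝ) * k ≤ (P.card : ℝ) ^ k * k := mul_le_mul_of_nonneg_right hGc (Nat.cast_nonneg _)
      _ ≤ (P.card : ℝ) ^ k * (ε / 4 * P.card) := by
          apply mul_le_mul_of_nonneg_left _ (by positivity)
          linarith
      _ = ε / 4 * (P.card : ℝ) ^ (k + 1) := by ring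
  have h10 : (β * c - ε / 4) * (P.card : ℝ) ^ (k + 1) ≤ (Gd.card : ℝ) * (c * P.card) := by
    have e1 : (β - ε / 4) * (P.card : ℝ) ^ k * (c * P.card) ≤ (Gd.card : ℝ) * (c * P.card) :=
      mul_le_mul_of_nonneg_right h1 (by positivity)
    refine le_trans ?_ e1
    have e2 : (β - ε / 4) * (P.card : ℝ) ^ k * (c * P.card) = (β * c - c * (ε / 4)) * (P.card : ℝ) ^ (k + 1) := by
      ring
    rw [e2]
    apply mul_le_mul_of_nonneg_right _ (by positivity)
    have : c * (ε / 4) ≤ 1 * (ε / 4) := mul_le_mul_of_nonneg_right hc1 (by positivity)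
    linarith
  have h12 : (β * c - ε) * (P.card : ℝ) ^ (k + 1) =
      (β * c - ε / 4) * (P.card : ℝ) ^ (k + 1) - ε / 4 * (P.card : ℝ) ^ (k + 1) - ε / 4 * (P.card : ℝ) ^ (k + 1) -
        ε / 4 * (P.card : ℝ) ^ (k + 1) := by ring
  have h13 : 0 ≤ ε / 4 * (P.card : ℝ) ^ (k + 1) := by positivity
  linarith

open Classical in
/-- **The number of the sparse tuples.** -/
theorem sparse_count (m : ℕ) (hm : 1 ≤ m) (χ : ∀ j : ℕ, (ZMod j)ˣ →* Multiplicative (ZMod p))
    (hχ : ∀ l : ℕ, l.Prime → p ∣ l - 1 → ∃ x, χ l x ≠ 1) (k : ℕ) : ∀ ε : ℝ, 0 < ε →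
    ∀ᶠ x : ℕ in atTop, (prp p k - ε) * ((clp p m x).card : ℝ) ^ k ≤
      (((tup k (clp p m x)).filter fun t => Function.Injective t ∧ SparseT χ t).card : ℝ) := by
  induction k with
  | zero =>
    intro ε hε
    refine Eventually.of_forall fun x => ?_
    have h1 : (tup 0 (clp p m x)).filter (fun t => Function.Injective t ∧ SparseT χ t) = tup 0 (clp p m x) :=
      filter_true_of_mem fun t _ => ⟨Function.injective_of_subsingleton _, fun i => i.elim0⟩
    rw [h1, card_tup]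
    unfold prp
    simp only [range_zero, prod_empty, pow_zero, mul_one, Nat.cast_one]
    linarith
  | succ k ih =>
    intro ε hε
    have h11 : prp p (k + 1) = prp p k * ((1 + k * ((p : ℝ) - 1)) / (p : ℝ) ^ k) := by
      unfold prp
      rw [prod_range_succ]
    rw [h11]
    have hstep : ∀ t : Fin (k + 1) → ℕ, (Function.Injective (Fin.tail t) ∧ SparseT χ (Fin.tail t)) →
        row χ (Fin.tail t) (t 0) ∈ Rsp p k → t 0 ∉ Set.range (Fin.tail t) → (Function.Injective t ∧ SparseT χ t) :=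
      fun t h1 h2 h3 => ⟨inj_of_tail t h1.1 h3, sparse_of_tail χ t h1.2 h2⟩
    have h12 := step m hm χ hχ k (fun t => Function.Injective t ∧ SparseT χ t) (fun t => Function.Injective t ∧ SparseT χ t)
      hstep (prp p k) (fun ε hε => by filter_upwards [ih ε hε] with x hx; convert hx) ε hε
    filter_upwards [h12] with x hx
    convert hx

end

end Pool.Agent.Q315.FM
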