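import Mathlib

/-!
# A bilinear estimate for Legendre symbols of primes
-/

set_option autoImplicit false

namespace Pool.Agent.Q315.FM

open Finset

/-- the Jacobi symbol as a real number -/
noncomputable def J (m n : ℕ) : ℝ := (jacobiSym (m : ℤ) n : ℝ)

lemma J_mul (a b n : ℕ) : J (a * b) n = J a n * J b n := by
  unfold J
  push_cast
  rw [jacobiSym.mul_left]
  push_cast
  rfl

lemma J_abs (m n : ℕ) : |J m n| ≤ 1 := by
  unfold J
  rcases jacobiSym.trichotomy (m : ℤ) n with h | h | h <;> rw [h] <;> norm_num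

lemma J_mod (m n : ℕ) : J (m % n) n = J m n := by
  unfold J
  congr 1
  rw [jacobiSym.mod_left (m : ℤ) n]
  push_cast
  rfl

lemma J_sum (q : ℕ) (hq : q.Prime) (hq2 : q ≠ 2) : ∑ a ∈ range q, J a q = 0 := by
  have : Fact q.Prime := ⟨hq⟩
  have h1 : ∑ x : ZMod q, quadraticChar (ZMod q) x = 0 :=
    quadraticChar_sum_zero (by rw [ZMod.ringChar_zmod_n]; exact hq2)
  have h2 : ∑ a ∈ range q, quadraticChar (ZMod q) ((a : ℕ) : ZMod q) = 0 := by
    rw [← h1]
    refine sum_bij (fun a _ => ((a : ℕ) : ZMod q)) (fun _ _ => mem_univ _) ?_ ?_ (fun _ _ => rfl)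
    · intro a ha b hb h
      rw [mem_range] at ha hb
      have := (ZMod.natCast_eq_natCast_iff' a b q).1 h
      rwa [Nat.mod_eq_of_lt ha, Nat.mod_eq_of_lt hb] at this
    · intro x _
      exact ⟨x.val, mem_range.2 (ZMod.val_lt x), by simp⟩
  unfold J
  have h3 : ∀ a : ℕ, jacobiSym (a : ℤ) q = quadraticChar (ZMod q) ((a : ℕ) : ZMod q) := by
    intro a
    rw [← jacobiSym.legendreSym.to_jacobiSym, legendreSym]
    push_cast
    rfl
  rw [← Int.cast_sum]
  simp only [h3]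
  rw [h2, Int.cast_zero]

/-- the complete sum for two different primes vanishes -/
lemma complete (p q : ℕ) (hp : p.Prime) (hq : q.Prime) (hp2 : p ≠ 2) (hpq : p ≠ q) :
    ∑ D ∈ range (p * q), J D p * J D q = 0 := by
  have hco : p.Coprime q := (Nat.coprime_primes hp hq).2 hpq
  have h1 : ∑ D ∈ range (p * q), J D p * J D q = ∑ x ∈ range p ×ˢ range q, J x.1 p * J x.2 q := by
    refine sum_nbij' (fun D => (D % p, D % q)) (fun y => (Nat.chineseRemainder hco y.1 y.2 : ℕ)) ?_ ?_ ?_ ?_ ?_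
    · intro D _
      rw [mem_product, mem_range, mem_range]
      exact ⟨Nat.mod_lt _ hp.pos, Nat.mod_lt _ hq.pos⟩
    · intro y _
      exact mem_range.2 (Nat.chineseRemainder_lt_mul hco _ _ hp.ne_zero hq.ne_zero)
    · intro D hD
      rw [mem_range] at hD
      simp only
      have h1 : (Nat.chineseRemainder hco (D % p) (D % q) : ℕ) ≡ D [MOD p * q] := by
        rw [← Nat.modEq_and_modEq_iff_modEq_mul hco]
        exact ⟨(Nat.chineseRemainder hco (D % p) (D % q)).2.1.trans (Nat.mod_modEq _ _),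
          (Nat.chineseRemainder hco (D % p) (D % q)).2.2.trans (Nat.mod_modEq _ _)⟩
      exact h1.eq_of_lt_of_lt (Nat.chineseRemainder_lt_mul hco _ _ hp.ne_zero hq.ne_zero) hD
    · rintro ⟨u, v⟩ h
      rw [mem_product, mem_range, mem_range] at h
      simp only at h ⊢
      have hk1 := (Nat.chineseRemainder hco u v).2.1
      have hk2 := (Nat.chineseRemainder hco u v).2.2
      rw [Nat.ModEq, Nat.mod_eq_of_lt h.1] at hk1
      rw [Nat.ModEq, Nat.mod_eq_of_lt h.2] at hk2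
      exact Prod.ext hk1 hk2
    · intro D _
      simp only
      rw [J_mod, J_mod]
  rw [h1, sum_product]
  simp only
  rw [← sum_mul_sum, J_sum p hp hp2, zero_mul]

/-- an incomplete sum over a period which sums to zero -/
lemma incomplete (f : ℕ → ℝ) (q : ℕ) (hq : 0 < q) (hper : ∀ n, f (n + q) = f n) (h1 : ∀ n, |f n| ≤ 1)
    (h0 : ∑ n ∈ range q, f n = 0) (H : ℕ) : |∑ n ∈ range H, f n| ≤ q := by
  have hk : ∀ k n, f (q * k + n) = f n := by
    intro k
    induction k with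
    | zero => intro n; simp
    | succ k ih =>
      intro n
      have : q * (k + 1) + n = (q * k + n) + q := by ring
      rw [this, hper, ih]
  have hz : ∀ k, ∑ n ∈ range (q * k), f n = 0 := by
    intro k
    induction k with
    | zero => simp
    | succ k ih =>
      rw [mul_add, mul_one, sum_range_add, ih, zero_add]
      simp only [hk]
      exact h0
  have hH : H = q * (H / q) + H % q := (Nat.div_add_mod H q).symm
  rw [hH, sum_range_add, hz, zero_add]
  refine (abs_sum_le_sum_abs _ _).trans ?_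
  refine (sum_le_sum fun n _ => h1 _).trans ?_
  rw [sum_const, card_range, nsmul_eq_mul, mul_one]
  exact_mod_cast (Nat.mod_lt _ hq).le

/-- the mean square over all `D < H` -/
lemma square_sum (N H : ℕ) (P : Finset ℕ) (hP : ∀ l ∈ P, l.Prime ∧ l ≠ 2 ∧ l ≤ N) :
    ∑ D ∈ range H, (∑ n ∈ P, J D n) ^ 2 ≤ P.card * H + (P.card : ℝ) ^ 2 * N ^ 2 := by
  have h1 : ∑ D ∈ range H, (∑ n ∈ P, J D n) ^ 2 = ∑ n ∈ P, ∑ n' ∈ P, ∑ D ∈ range H, J D n * J D n' := by
    simp only [sq, sum_mul_sum]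
    rw [sum_comm]
    apply sum_congr rfl
    intro n _
    rw [sum_comm]
  rw [h1]
  have h2 : ∀ n ∈ P, ∑ n' ∈ P, ∑ D ∈ range H, J D n * J D n' ≤ H + P.card * (N : ℝ) ^ 2 := by
    intro n hn
    rw [← add_sum_erase P _ hn]
    apply add_le_add
    · calc ∑ D ∈ range H, J D n * J D n ≤ ∑ D ∈ range H, (1 : ℝ) := by
            apply sum_le_sum
            intro D _
            have h := J_abs D n
            have h' : |J D n| * |J D n| ≤ 1 * 1 := mul_le_mul h h (abs_nonneg _) zero_le_one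
            rw [abs_mul_abs_self] at h'
            linarith
        _ = H := by rw [sum_const, card_range, nsmul_eq_mul, mul_one]
    · calc ∑ n' ∈ P.erase n, ∑ D ∈ range H, J D n * J D n' ≤ ∑ n' ∈ P.erase n, (N : ℝ) ^ 2 := by
            apply sum_le_sum
            intro n' hn'
            rw [mem_erase] at hn'
            have hp := hP n hn
            have hq := hP n' hn'.2
            refine (le_abs_self _).trans ((incomplete _ (n * n') (Nat.mul_pos hp.1.pos hq.1.pos) ?_ ?_ ?_ H).trans ?_)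
            · intro D
              have e1 : J (D + n * n') n = J D n := by
                rw [← J_mod (D + n * n') n, Nat.add_mul_mod_self_left, J_mod]
              have e2 : J (D + n * n') n' = J D n' := by
                rw [← J_mod (D + n * n') n', Nat.add_mul_mod_self_right, J_mod]
              rw [e1, e2]
            · intro D
              rw [abs_mul]
              exact mul_le_one₀ (J_abs _ _) (abs_nonneg _) (J_abs _ _)
            · exact complete n n' hp.1 hq.1 hp.2.1 (Ne.symm hn'.1)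
            · push_cast
              rw [sq]
              have a1 : (n : ℝ) ≤ N := by exact_mod_cast hp.2.2
              have a2 : (n' : ℝ) ≤ N := by exact_mod_cast hq.2.2
              exact mul_le_mul a1 a2 (Nat.cast_nonneg _) (Nat.cast_nonneg _)
        _ = (P.erase n).card * (N : ℝ) ^ 2 := by rw [sum_const, nsmul_eq_mul]
        _ ≤ P.card * (N : ℝ) ^ 2 := by
            apply mul_le_mul_of_nonneg_right _ (by positivity)
            exact_mod_cast card_le_card (erase_subset _ _)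
  refine (sum_le_sum h2).trans (le_of_eq ?_)
  rw [sum_const, nsmul_eq_mul]
  ring

/-- the product of the four numbers -/
def D4 (z : (ℕ × ℕ) × (ℕ × ℕ)) : ℕ := (z.1.1 * z.1.2) * (z.2.1 * z.2.2)

lemma fiber (P : Finset ℕ) (hP : ∀ l ∈ P, l.Prime) (d : ℕ) :
    (((P ×ˢ P) ×ˢ (P ×ˢ P)).filter (fun z => D4 z = d)).card ≤ 256 := by
  classical
  rcases (((P ×ˢ P) ×ˢ (P ×ˢ P)).filter (fun z => D4 z = d)).eq_empty_or_nonempty with h | ⟨z, hz⟩
  · rw [h]; simp
  rw [mem_filter, mem_product, mem_product, mem_product] at hz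
  obtain ⟨⟨⟨h1, h2⟩, h3, h4⟩, hz⟩ := hz
  set F : Finset ℕ := {z.1.1, z.1.2, z.2.1, z.2.2} with hF
  have hFc : F.card ≤ 4 := card_le_four
  have key : ∀ l : ℕ, l.Prime → l ∣ d → l ∈ F := by
    intro l hl hld
    rw [← hz, D4] at hld
    rw [hF]
    simp only [mem_insert, mem_singleton]
    have hpp : ∀ q ∈ P, l ∣ q → l = q := fun q hq h => (Nat.prime_dvd_prime_iff_eq hl (hP q hq)).1 h
    rcases hl.dvd_mul.1 hld with h | h <;> rcases hl.dvd_mul.1 h with h | h
    · exact Or.inl (hpp _ h1 h)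
    · exact Or.inr (Or.inl (hpp _ h2 h))
    · exact Or.inr (Or.inr (Or.inl (hpp _ h3 h)))
    · exact Or.inr (Or.inr (Or.inr (hpp _ h4 h)))
  have hsub : ((P ×ˢ P) ×ˢ (P ×ˢ P)).filter (fun z => D4 z = d) ⊆ (F ×ˢ F) ×ˢ (F ×ˢ F) := by
    intro y hy
    rw [mem_filter, mem_product, mem_product, mem_product] at hy
    obtain ⟨⟨⟨g1, g2⟩, g3, g4⟩, hy⟩ := hy
    rw [mem_product, mem_product, mem_product]
    refine ⟨⟨key _ (hP _ g1) ?_, key _ (hP _ g2) ?_⟩, key _ (hP _ g3) ?_, key _ (hP _ g4) ?_⟩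
    · rw [← hy]; exact Dvd.intro (y.1.2 * (y.2.1 * y.2.2)) (by rw [D4]; ring)
    · rw [← hy]; exact Dvd.intro (y.1.1 * (y.2.1 * y.2.2)) (by rw [D4]; ring)
    · rw [← hy]; exact Dvd.intro (y.1.1 * y.1.2 * y.2.2) (by rw [D4]; ring)
    · rw [← hy]; exact Dvd.intro (y.1.1 * y.1.2 * y.2.1) (by rw [D4]; ring)
  refine (card_le_card hsub).trans ?_
  rw [card_product, card_product]
  have h5 : F.card * F.card ≤ 4 * 4 := Nat.mul_le_mul hFc hFc
  calc F.card * F.card * (F.card * F.card) ≤ (4 * 4) * (4 * 4) := Nat.mul_le_mul h5 h5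
    _ = 256 := by norm_num

/-- **The bilinear estimate.** -/
theorem bilinear (N : ℕ) (hN : 1 ≤ N) (P : Finset ℕ) (hP : ∀ l ∈ P, l.Prime ∧ l ≠ 2 ∧ l ≤ N) (a b : ℕ → ℝ)
    (ha : ∀ m, |a m| ≤ 1) (hb : ∀ n, |b n| ≤ 1) :
    (∑ m ∈ P, ∑ n ∈ P, a m * b n * J m n) ^ 8 ≤ 768 * (N : ℝ) ^ 15 := by
  classical
  have hPN : P.card ≤ N := by
    have : P ⊆ Icc 1 N := fun l hl => mem_Icc.2 ⟨(hP l hl).1.pos, (hP l hl).2.2⟩
    simpa using card_le_card this
  have hPNr : (P.card : ℝ) ≤ N := by exact_mod_cast hPN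
  have hNr : (1 : ℝ) ≤ N := by exact_mod_cast hN
  have hc0 : (0 : ℝ) ≤ P.card := Nat.cast_nonneg _
  set W : ℕ → ℝ := fun n => ∑ m ∈ P, a m * J m n with hW
  -- the sum is at most the sum of the absolute values
  have h1 : |∑ m ∈ P, ∑ n ∈ P, a m * b n * J m n| ≤ ∑ n ∈ P, |W n| := by
    rw [sum_comm]
    refine (abs_sum_le_sum_abs _ _).trans (sum_le_sum fun n _ => ?_)
    have : ∑ m ∈ P, a m * b n * J m n = b n * W n := by
      rw [hW, mul_sum]
      exact sum_congr rfl fun m _ => by ring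
    rw [this, abs_mul]
    exact mul_le_of_le_one_left (abs_nonneg _) (hb n)
  have h2 : (∑ n ∈ P, |W n|) ^ 4 ≤ (N : ℝ) ^ 3 * ∑ n ∈ P, W n ^ 4 := by
    rcases P.eq_empty_or_nonempty with hPe | hPne
    · simp [hPe]
    have h4 : (∑ n ∈ P, |W n|) ^ (3 + 1) / (P.card : ℝ) ^ 3 ≤ ∑ n ∈ P, |W n| ^ (3 + 1) :=
      pow_sum_div_card_le_sum_pow (fun n _ => abs_nonneg _) 3
    have hc : (0 : ℝ) < (P.card : ℝ) ^ 3 := by
      have : 0 < P.card := hPne.card_pos
      positivity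
    rw [div_le_iff₀ hc] at h4
    have h5 : ∑ n ∈ P, |W n| ^ (3 + 1) = ∑ n ∈ P, W n ^ 4 :=
      sum_congr rfl fun n _ => by rw [show 3 + 1 = 4 from rfl]; exact Even.pow_abs (by decide) _
    rw [h5] at h4
    refine h4.trans ?_
    rw [mul_comm]
    apply mul_le_mul_of_nonneg_right
    · exact pow_le_pow_left₀ hc0 hPNr 3
    · exact sum_nonneg fun n _ => by positivity
  -- the fourth power
  set Q := (P ×ˢ P) ×ˢ (P ×ˢ P) with hQ
  have h6 : ∀ n, W n ^ 4 = ∑ z ∈ Q, (a z.1.1 * a z.1.2 * (a z.2.1 * a z.2.2)) * J (D4 z) n := by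
    intro n
    have e1 : W n ^ 2 = ∑ x ∈ P ×ˢ P, (a x.1 * a x.2) * J (x.1 * x.2) n := by
      rw [sq, hW, sum_mul_sum, sum_product]
      exact sum_congr rfl fun m _ => sum_congr rfl fun m' _ => by rw [J_mul]; ring
    have e2 : W n ^ 4 = W n ^ 2 * W n ^ 2 := by ring
    rw [e2, e1, sum_mul_sum, hQ, sum_product (P ×ˢ P) (P ×ˢ P)]
    refine sum_congr rfl fun x _ => sum_congr rfl fun y _ => ?_
    rw [D4, J_mul (x.1 * x.2) (y.1 * y.2)]
    ring
  set g : ℕ → ℝ := fun D => |∑ n ∈ P, J D n| with hg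
  have h7 : ∑ n ∈ P, W n ^ 4 ≤ ∑ z ∈ Q, g (D4 z) := by
    simp only [h6]
    rw [sum_comm]
    apply sum_le_sum
    intro z _
    rw [← mul_sum]
    refine (le_abs_self _).trans ?_
    rw [abs_mul]
    apply mul_le_of_le_one_left (abs_nonneg _)
    rw [abs_mul, abs_mul, abs_mul]
    have := ha z.1.1
    have := ha z.1.2
    have := ha z.2.1
    have := ha z.2.2
    exact mul_le_one₀ (mul_le_one₀ (ha _) (abs_nonneg _) (ha _)) (by positivity)
      (mul_le_one₀ (ha _) (abs_nonneg _) (ha _))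
  have h8 : (∑ z ∈ Q, g (D4 z)) ^ 2 ≤ Q.card * ∑ z ∈ Q, g (D4 z) ^ 2 := sq_sum_le_card_mul_sum_sq
  have hQc : (Q.card : ℝ) ≤ (N : ℝ) ^ 4 := by
    rw [hQ, card_product, card_product]
    push_cast
    calc (P.card : ℝ) * P.card * (P.card * P.card) = (P.card : ℝ) ^ 4 := by ring
      _ ≤ _ := pow_le_pow_left₀ hc0 hPNr 4
  have h9 : ∑ z ∈ Q, g (D4 z) ^ 2 ≤ 256 * ∑ D ∈ range (N ^ 4 + 1), g D ^ 2 := by
    have hm : ∀ z ∈ Q, D4 z ∈ range (N ^ 4 + 1) := by
      intro z hz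
      rw [hQ, mem_product, mem_product, mem_product] at hz
      rw [mem_range, D4]
      have b1 := (hP _ hz.1.1).2.2
      have b2 := (hP _ hz.1.2).2.2
      have b3 := (hP _ hz.2.1).2.2
      have b4 := (hP _ hz.2.2).2.2
      have : (z.1.1 * z.1.2) * (z.2.1 * z.2.2) ≤ (N * N) * (N * N) :=
        Nat.mul_le_mul (Nat.mul_le_mul b1 b2) (Nat.mul_le_mul b3 b4)
      have e : (N * N) * (N * N) = N ^ 4 := by ring
      omega
    rw [← sum_fiberwise_of_maps_to hm, mul_sum]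
    apply sum_le_sum
    intro d _
    have h10 : ∑ z ∈ Q.filter (fun z => D4 z = d), g (D4 z) ^ 2 = ∑ z ∈ Q.filter (fun z => D4 z = d), g d ^ 2 :=
      sum_congr rfl fun z hz => by rw [(mem_filter.1 hz).2]
    rw [h10, sum_const, nsmul_eq_mul]
    apply mul_le_mul_of_nonneg_right _ (by positivity)
    exact_mod_cast fiber P (fun l hl => (hP l hl).1) d
  have h11 : ∑ D ∈ range (N ^ 4 + 1), g D ^ 2 ≤ 3 * (N : ℝ) ^ 5 := by
    have := square_sum N (N ^ 4 + 1) P hP
    simp only [hg, sq_abs]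
    refine this.trans ?_
    push_cast
    have e1 : (P.card : ℝ) * ((N : ℝ) ^ 4 + 1) ≤ N * ((N : ℝ) ^ 4 + 1) :=
      mul_le_mul_of_nonneg_right hPNr (by positivity)
    have e2 : (P.card : ℝ) ^ 2 * (N : ℝ) ^ 2 ≤ (N : ℝ) ^ 2 * (N : ℝ) ^ 2 :=
      mul_le_mul_of_nonneg_right (pow_le_pow_left₀ hc0 hPNr 2) (by positivity)
    have e3 : (N : ℝ) ≤ (N : ℝ) ^ 5 := le_self_pow₀ hNr (by norm_num)
    have e4 : (N : ℝ) ^ 4 ≤ (N : ℝ) ^ 5 := pow_le_pow_right₀ hNr (by norm_num)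
    nlinarith
  -- put together
  have hS0 : 0 ≤ ∑ z ∈ Q, g (D4 z) := sum_nonneg fun z _ => abs_nonneg _
  have h12 : (∑ z ∈ Q, g (D4 z)) ^ 2 ≤ 768 * (N : ℝ) ^ 9 := by
    refine h8.trans ?_
    have h13 : ∑ z ∈ Q, g (D4 z) ^ 2 ≤ 256 * (3 * (N : ℝ) ^ 5) :=
      h9.trans (mul_le_mul_of_nonneg_left h11 (by norm_num))
    calc (Q.card : ℝ) * ∑ z ∈ Q, g (D4 z) ^ 2 ≤ (N : ℝ) ^ 4 * (256 * (3 * (N : ℝ) ^ 5)) :=
          mul_le_mul hQc h13 (sum_nonneg fun z _ => by positivity) (by positivity)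
      _ = _ := by ring
  have h14 : |∑ m ∈ P, ∑ n ∈ P, a m * b n * J m n| ^ 4 ≤ (N : ℝ) ^ 3 * ∑ z ∈ Q, g (D4 z) := by
    refine (pow_le_pow_left₀ (abs_nonneg _) h1 4).trans (h2.trans ?_)
    exact mul_le_mul_of_nonneg_left h7 (by positivity)
  have h15 : (|∑ m ∈ P, ∑ n ∈ P, a m * b n * J m n| ^ 4) ^ 2 ≤ ((N : ℝ) ^ 3 * ∑ z ∈ Q, g (D4 z)) ^ 2 :=
    pow_le_pow_left₀ (by positivity) h14 2
  rw [← pow_mul, show 4 * 2 = 8 from rfl, Even.pow_abs (by decide : Even 8)] at h15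
  refine h15.trans ?_
  rw [mul_pow, ← pow_mul]
  calc (N : ℝ) ^ (3 * 2) * (∑ z ∈ Q, g (D4 z)) ^ 2 ≤ (N : ℝ) ^ (3 * 2) * (768 * (N : ℝ) ^ 9) :=
        mul_le_mul_of_nonneg_left h12 (by positivity)
    _ = _ := by ring

end Pool.Agent.Q315.FM
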