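import Pool.Agent.Q315.FM.Main

/-!
# A new linear algebra criterion in dimension less than `p`
-/

set_option autoImplicit false

namespace Pool.Agent.Q315.FM

open Finset

section
variable {K : Type} [Field K] {V : Type} [AddCommGroup V] [Module K V] [FiniteDimensional K V]

lemma pow_zero_of_nilpotent {T : Module.End K V} (hT : IsNilpotent T) {q : ℕ} (hq : Module.finrank K V ≤ q) : T ^ q = 0 := by
  obtain ⟨m, hm⟩ := hT
  have h1 : LinearMap.ker (T ^ m) ≤ LinearMap.ker (T ^ Module.finrank K V) := Module.End.ker_pow_le_ker_pow_finrank T m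
  have h2 : T ^ Module.finrank K V = 0 := by
    rw [hm, LinearMap.ker_zero, top_le_iff, LinearMap.ker_eq_top] at h1
    exact h1
  obtain ⟨d, rfl⟩ := Nat.exists_eq_add_of_le hq
  rw [pow_add, h2, zero_mul]

/-- the conjugation by the exponential of a nilpotent endomorphism -/
lemma conj_exp {p : ℕ} (hp : p.Prime) [CharP K p] {N T : Module.End K V} (h : N * T - T * N = T) (hT : IsNilpotent T)
    (hV : Module.finrank K V < p) (c : K) : ∃ g : Module.End K V, IsUnit g ∧ g * N = (N + c • T) * g := by
  have hTp : T ^ p = 0 := pow_zero_of_nilpotent hT hV.le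
  set a : ℕ → K := fun j => (-c) ^ j / (j.factorial : K) with ha
  have hfac : ∀ j < p, ((j.factorial : ℕ) : K) ≠ 0 := by
    intro j hj h0
    rw [CharP.cast_eq_zero_iff K p] at h0
    exact absurd ((hp.dvd_factorial).1 h0) (by omega)
  have hNT : ∀ j : ℕ, N * T ^ j = T ^ j * N + (j : K) • T ^ j := by
    intro j
    induction j with
    | zero => simp
    | succ j ih =>
      have h1 : N * T = T * N + T := by
        rw [add_comm]
        exact sub_eq_iff_eq_add.1 h
      calc N * T ^ (j + 1) = (N * T ^ j) * T := by rw [pow_succ, mul_assoc]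
        _ = (T ^ j * N + (j : K) • T ^ j) * T := by rw [ih]
        _ = T ^ j * (N * T) + (j : K) • (T ^ j * T) := by rw [add_mul, mul_assoc, smul_mul_assoc]
        _ = T ^ j * (T * N + T) + (j : K) • (T ^ j * T) := by rw [h1]
        _ = T ^ (j + 1) * N + ((j + 1 : ℕ) : K) • T ^ (j + 1) := by
            rw [mul_add, ← mul_assoc, ← pow_succ]
            push_cast
            rw [add_smul, one_smul]
            abel
  set g : Module.End K V := ∑ j ∈ range p, a j • T ^ j with hg
  have hrec : ∀ j, j + 1 < p → (-c) * a j = ((j + 1 : ℕ) : K) * a (j + 1) := by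
    intro j hj
    have h1 := hfac j (by omega)
    have h2 := hfac (j + 1) hj
    rw [ha]
    simp only
    rw [Nat.factorial_succ] at h2 ⊢
    push_cast at h2 ⊢
    have h3 : ((j : K) + 1) ≠ 0 := left_ne_zero_of_mul h2
    field_simp
    ring
  refine ⟨g, ?_, ?_⟩
  · -- `g = 1 + T * ...`
    have hp1 : p = (p - 1) + 1 := by have := hp.one_lt; omega
    have h1 : g = 1 + T * ∑ j ∈ range (p - 1), a (j + 1) • T ^ j := by
      rw [hg, hp1, sum_range_succ', add_comm]
      congr 1
      · rw [ha]; simp
      · rw [mul_sum]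
        exact sum_congr rfl fun j _ => by rw [mul_smul_comm, ← pow_succ']
    rw [h1]
    apply IsNilpotent.isUnit_one_add
    apply Commute.isNilpotent_mul_right _ hT
    exact Commute.sum_right _ _ _ fun j _ => ((Commute.refl T).pow_right j).smul_right _
  · have h1 : g * N = N * g - ∑ j ∈ range p, ((j : K) * a j) • T ^ j := by
      rw [hg, sum_mul, mul_sum, ← sum_sub_distrib]
      refine sum_congr rfl fun j _ => ?_
      rw [smul_mul_assoc, mul_smul_comm, hNT j, smul_add, smul_smul, mul_comm (a j) (j : K)]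
      abel
    have h2 : ∑ j ∈ range p, ((j : K) * a j) • T ^ j = -(c • T) * g := by
      have hp1 : p = (p - 1) + 1 := by have := hp.one_lt; omega
      have h3 : -(c • T) * g = ∑ j ∈ range p, ((-c) * a j) • T ^ (j + 1) := by
        rw [hg, mul_sum]
        refine sum_congr rfl fun j _ => ?_
        rw [mul_smul_comm, neg_mul, smul_mul_assoc, ← pow_succ', smul_neg, smul_smul, neg_mul, neg_smul, mul_comm c]
      rw [h3, hp1, sum_range_succ', sum_range_succ, ← hp1, hTp, smul_zero, add_zero]
      simp only [Nat.cast_zero, zero_mul, zero_smul, add_zero]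
      refine sum_congr rfl fun j hj => ?_
      rw [mem_range] at hj
      rw [hrec j (by omega)]
    rw [h1, h2, add_mul, sub_eq_add_neg, neg_mul, neg_neg]

/-- the set of the eigenvalues does not change -/
lemma eig_iff {p : ℕ} (hp : p.Prime) [CharP K p] {N T : Module.End K V} (h : N * T - T * N = T) (hT : IsNilpotent T)
    (hV : Module.finrank K V < p) (c μ : K) : (N + c • T).HasEigenvalue μ ↔ N.HasEigenvalue μ := by
  obtain ⟨g, hg, hgN⟩ := conj_exp hp h hT hV c
  obtain ⟨u, rfl⟩ := hg
  have hinj : Function.Injective ((u : Module.End K V) : V → V) := by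
    intro v w hvw
    have h1 := congrArg ((↑u⁻¹ : Module.End K V)) hvw
    rwa [← Module.End.mul_apply, ← Module.End.mul_apply, Units.inv_mul, Module.End.one_apply, Module.End.one_apply] at h1
  have hinj' : Function.Injective ((↑u⁻¹ : Module.End K V) : V → V) := by
    intro v w hvw
    have h1 := congrArg ((u : Module.End K V)) hvw
    rwa [← Module.End.mul_apply, ← Module.End.mul_apply, Units.mul_inv, Module.End.one_apply, Module.End.one_apply] at h1
  have hgN' : N * ↑u⁻¹ = ↑u⁻¹ * (N + c • T) := by
    have h1 : ↑u⁻¹ * (↑u * N) * (↑u⁻¹ : Module.End K V) = ↑u⁻¹ * ((N + c • T) * ↑u) * (↑u⁻¹ : Module.End K V) := by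
      rw [hgN]
    rw [← mul_assoc, Units.inv_mul, one_mul, mul_assoc (↑u⁻¹ : Module.End K V), mul_assoc (N + c • T), Units.mul_inv,
      mul_one] at h1
    exact h1
  constructor
  · intro hμ
    obtain ⟨v, hv⟩ := hμ.exists_hasEigenvector
    have h1 : N ((↑u⁻¹ : Module.End K V) v) = μ • ((↑u⁻¹ : Module.End K V) v) := by
      rw [← Module.End.mul_apply, hgN', Module.End.mul_apply, hv.apply_eq_smul, map_smul]
    refine Module.End.hasEigenvalue_of_hasEigenvector (x := (↑u⁻¹ : Module.End K V) v) ⟨Module.End.mem_eigenspace_iff.2 h1, ?_⟩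
    intro h0
    exact hv.2 (hinj' (by rw [h0, map_zero]))
  · intro hμ
    obtain ⟨v, hv⟩ := hμ.exists_hasEigenvector
    have h1 : (N + c • T) ((u : Module.End K V) v) = μ • ((u : Module.End K V) v) := by
      rw [← Module.End.mul_apply, ← hgN, Module.End.mul_apply, hv.apply_eq_smul, map_smul]
    refine Module.End.hasEigenvalue_of_hasEigenvector (x := (u : Module.End K V) v) ⟨Module.End.mem_eigenspace_iff.2 h1, ?_⟩
    intro h0
    exact hv.2 (hinj (by rw [h0, map_zero]))

/-- an eigenvalue `μ` such that `μ + 1` is not an eigenvalue -/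
lemma exists_top [IsAlgClosed K] {p : ℕ} [CharP K p] [Nontrivial V] (N : Module.End K V)
    (hV : Module.finrank K V < p) : ∃ μ : K, N.HasEigenvalue μ ∧ ¬ N.HasEigenvalue (μ + 1) := by
  by_contra hcon
  push Not at hcon
  obtain ⟨μ, hμ⟩ := Module.End.exists_eigenvalue N
  have h1 : ∀ i : ℕ, N.HasEigenvalue (μ + i) := by
    intro i
    induction i with
    | zero => simpa using hμ
    | succ i ih =>
      have := hcon _ ih
      rw [add_assoc] at this
      push_cast
      exact this
  choose v hv using fun i : ℕ => (h1 i).exists_hasEigenvector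
  have hinj : Function.Injective (fun i : Fin p => μ + ((i : ℕ) : K)) := by
    intro i j hij
    simp only [add_right_inj] at hij
    have h2 := (CharP.natCast_eq_natCast K p).1 hij
    rw [Nat.ModEq, Nat.mod_eq_of_lt i.2, Nat.mod_eq_of_lt j.2] at h2
    exact Fin.ext h2
  have h3 := Module.End.eigenvectors_linearIndependent' N (fun i : Fin p => μ + ((i : ℕ) : K)) hinj (fun i => v i)
    (fun i => hv i)
  have h4 := h3.fintype_card_le_finrank
  rw [Fintype.card_fin] at h4
  omega

/-- a common vector -/
lemma common [IsAlgClosed K] {p : ℕ} (hp : p.Prime) [CharP K p] [Nontrivial V] {ι : Type} (J : Finset ι) (hJ : J.Nonempty)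
    (N T : ι → Module.End K V) (hrel : ∀ l ∈ J, N l * T l - T l * N l = T l) (hnil : ∀ l ∈ J, IsNilpotent (T l))
    (hV : Module.finrank K V < p)
    (hadj : ∀ l ∈ J, ∀ l' ∈ J, Relation.ReflTransGen
      (fun x y => x ∈ J ∧ y ∈ J ∧ ∃ a b : K, N x + a • T x = N y + b • T y) l l') :
    ∃ w : V, w ≠ 0 ∧ ∀ l ∈ J, T l w = 0 := by
  obtain ⟨l0, hl0⟩ := hJ
  obtain ⟨μ, hμ, hμ1⟩ := exists_top (p := p) (N l0) hV
  obtain ⟨w, hw⟩ := hμ.exists_hasEigenvector
  have hrel' : ∀ l ∈ J, ∀ a : K, (N l + a • T l) * T l - T l * (N l + a • T l) = T l := by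
    intro l hl a
    rw [add_mul, mul_add, smul_mul_assoc, mul_smul_comm, add_sub_add_right_eq_sub]
    exact hrel l hl
  have key : ∀ l, Relation.ReflTransGen (fun x y => x ∈ J ∧ y ∈ J ∧ ∃ a b : K, N x + a • T x = N y + b • T y) l0 l →
      l ∈ J → (∀ ν, (N l).HasEigenvalue ν ↔ (N l0).HasEigenvalue ν) ∧ N l w = μ • w ∧ T l w = 0 := by
    intro l h
    induction h with
    | refl =>
      intro _
      refine ⟨fun ν => Iff.rfl, hw.apply_eq_smul, ?_⟩
      by_contra h0
      apply hμ1
      refine Module.End.hasEigenvalue_of_hasEigenvector (x := T l0 w) ⟨Module.End.mem_eigenspace_iff.2 ?_, h0⟩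
      have h1 := congrArg (fun f : Module.End K V => f w) (hrel l0 hl0)
      simp only [LinearMap.sub_apply, Module.End.mul_apply] at h1
      rw [hw.apply_eq_smul, map_smul, sub_eq_iff_eq_add] at h1
      rw [h1, add_smul, one_smul, add_comm]
    | @tail b c _ hbc ih =>
      obtain ⟨hb, hc, a, d, had⟩ := hbc
      intro _
      obtain ⟨ih1, ih2, ih3⟩ := ih hb
      have e1 : ∀ ν, (N c).HasEigenvalue ν ↔ (N l0).HasEigenvalue ν := by
        intro ν
        rw [← ih1 ν, ← eig_iff hp (hrel b hb) (hnil b hb) hV a ν, had, eig_iff hp (hrel c hc) (hnil c hc) hV d ν]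
      -- the middle endomorphism
      have e2 : (N c + d • T c) w = μ • w := by
        rw [← had, LinearMap.add_apply, LinearMap.smul_apply, ih3, smul_zero, add_zero, ih2]
      have e3 : T c w = 0 := by
        by_contra h0
        apply hμ1
        rw [← e1, ← eig_iff hp (hrel c hc) (hnil c hc) hV d (μ + 1)]
        refine Module.End.hasEigenvalue_of_hasEigenvector (x := T c w) ⟨Module.End.mem_eigenspace_iff.2 ?_, h0⟩
        have h1 := congrArg (fun f : Module.End K V => f w) (hrel' c hc d)
        simp only [LinearMap.sub_apply, Module.End.mul_apply] at h1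
        rw [e2, map_smul, sub_eq_iff_eq_add] at h1
        rw [h1, add_smul, one_smul, add_comm]
      refine ⟨e1, ?_, e3⟩
      rw [LinearMap.add_apply, LinearMap.smul_apply, e3, smul_zero, add_zero] at e2
      exact e2
  exact ⟨w, hw.2, fun l hl => (key l (hadj l0 hl0 l hl) hl).2.2⟩

end

/-- **The main lemma.** -/
theorem chain_zero {K : Type} [Field K] [IsAlgClosed K] {p : ℕ} (hp : p.Prime) [CharP K p] {ι : Type} (J : Finset ι)
    (μ : ι → ι → K)
    (hadj : ∀ l ∈ J, ∀ l' ∈ J, Relation.ReflTransGen
      (fun x y => x ∈ J ∧ y ∈ J ∧ ∀ j ∈ J, j ≠ x → j ≠ y → μ x j = μ y j) l l') :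
    ∀ (d : ℕ) (V : Type) [AddCommGroup V] [Module K V] [FiniteDimensional K V], Module.finrank K V = d → d < p →
      ∀ T : ι → Module.End K V, (∀ l ∈ J, IsNilpotent (T l)) →
        (∀ l ∈ J, (∑ j ∈ J, μ l j • T j) * T l - T l * (∑ j ∈ J, μ l j • T j) = T l) → ∀ l ∈ J, T l = 0 := by
  classical
  intro d
  induction d using Nat.strong_induction_on with
  | _ d ih =>
    intro V _ _ _ hd hdp T hnil hrel l hl
    rcases subsingleton_or_nontrivial V with hs | hs
    · exact LinearMap.ext fun v => Subsingleton.elim _ _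
    -- the adjacency
    have hadj' : ∀ l ∈ J, ∀ l' ∈ J, Relation.ReflTransGen
        (fun x y => x ∈ J ∧ y ∈ J ∧ ∃ a b : K, (∑ j ∈ J, μ x j • T j) + a • T x = (∑ j ∈ J, μ y j • T j) + b • T y) l l' := by
      intro l hl l' hl'
      refine Relation.ReflTransGen.mono ?_ _ _ (hadj l hl l' hl')
      intro x y hxy
      obtain ⟨hx, hy, h⟩ := hxy
      refine ⟨hx, hy, ?_⟩
      by_cases hxy' : x = y
      · subst hxy'
        exact ⟨0, 0, rfl⟩
      refine ⟨μ y x - μ x x, μ x y - μ y y, ?_⟩
      have e1 : ∀ z : ι, ∑ j ∈ J, μ z j • T j =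
          μ z x • T x + (μ z y • T y + ∑ j ∈ (J.erase x).erase y, μ z j • T j) := by
        intro z
        rw [← add_sum_erase J _ hx, ← add_sum_erase (J.erase x) _ (mem_erase.2 ⟨Ne.symm hxy', hy⟩)]
      have e2 : ∑ j ∈ (J.erase x).erase y, μ x j • T j = ∑ j ∈ (J.erase x).erase y, μ y j • T j := by
        refine sum_congr rfl fun j hj => ?_
        rw [mem_erase, mem_erase] at hj
        rw [h j hj.2.2 hj.2.1 hj.1]
      rw [e1 x, e1 y, e2, sub_smul, sub_smul]
      abel
    obtain ⟨w, hw0, hw⟩ := common hp J ⟨l, hl⟩ (fun l => ∑ j ∈ J, μ l j • T j) T hrel hnil (by rw [hd]; exact hdp) hadj'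
    -- the quotient by the common kernel
    set U : Submodule K V := ⨅ j ∈ J, LinearMap.ker (T j) with hU
    have hUmem : ∀ v, v ∈ U ↔ ∀ j ∈ J, T j v = 0 := by
      intro v
      rw [hU]
      simp only [Submodule.mem_iInf, LinearMap.mem_ker]
    have hstab : ∀ j ∈ J, U ≤ U.comap (T j) := by
      intro j hj v hv
      rw [Submodule.mem_comap, (hUmem v).1 hv j hj]
      exact U.zero_mem
    let T' : ι → Module.End K (V ⧸ U) := fun j => if hj : j ∈ J then U.mapQ U (T j) (hstab j hj) else 0
    have hT'mk : ∀ j ∈ J, ∀ v, T' j (Submodule.Quotient.mk v) = Submodule.Quotient.mk (T j v) := by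
      intro j hj v
      simp only [T']
      rw [dif_pos hj, Submodule.mapQ_apply]
    have hUne : U ≠ ⊥ := by
      intro h
      apply hw0
      have : w ∈ U := (hUmem w).2 hw
      rw [h] at this
      exact (Submodule.mem_bot K).1 this
    have hUpos : 0 < Module.finrank K U := by
      rw [Module.finrank_pos_iff]
      exact Submodule.nontrivial_iff_ne_bot.2 hUne
    have hquot := Submodule.finrank_quotient_add_finrank U
    have hsumT' : ∀ l' : ι, ∀ v, (∑ j ∈ J, μ l' j • T' j) (Submodule.Quotient.mk v) =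
        Submodule.Quotient.mk ((∑ j ∈ J, μ l' j • T j) v) := by
      intro l' v
      rw [LinearMap.sum_apply, LinearMap.sum_apply]
      have e0 : (Submodule.Quotient.mk (∑ j ∈ J, (μ l' j • T j) v) : V ⧸ U) = U.mkQ (∑ j ∈ J, (μ l' j • T j) v) := rfl
      rw [e0, map_sum]
      refine sum_congr rfl fun j hj => ?_
      rw [LinearMap.smul_apply, hT'mk j hj, LinearMap.smul_apply, map_smul]
      rfl
    have hzero := ih (Module.finrank K (V ⧸ U)) (by omega) (V ⧸ U) rfl (by omega) T'
      (by
        intro j hj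
        obtain ⟨q, hq⟩ := hnil j hj
        refine ⟨q, ?_⟩
        have h1 : ∀ (i : ℕ) (v : V), (T' j ^ i) (Submodule.Quotient.mk v) = Submodule.Quotient.mk ((T j ^ i) v) := by
          intro i
          induction i with
          | zero => intro v; simp
          | succ i ihi =>
            intro v
            rw [pow_succ', pow_succ', Module.End.mul_apply, Module.End.mul_apply, ihi, hT'mk j hj]
        apply LinearMap.ext
        intro x
        obtain ⟨v, rfl⟩ := Submodule.Quotient.mk_surjective U x
        rw [h1, hq]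
        rfl)
      (by
        intro l' hl'
        apply LinearMap.ext
        intro x
        obtain ⟨v, rfl⟩ := Submodule.Quotient.mk_surjective U x
        rw [LinearMap.sub_apply, Module.End.mul_apply, Module.End.mul_apply, hT'mk l' hl', hsumT', hsumT', hT'mk l' hl',
          ← Submodule.Quotient.mk_sub]
        congr 1
        have := congrArg (fun f : Module.End K V => f v) (hrel l' hl')
        simpa only [LinearMap.sub_apply, Module.End.mul_apply] using this)
    -- all images lie in `U`
    have himg : ∀ j ∈ J, ∀ v, T j v ∈ U := by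
      intro j hj v
      have h1 := congrArg (fun f : Module.End K (V ⧸ U) => f (Submodule.Quotient.mk v)) (hzero j hj)
      simp only [LinearMap.zero_apply] at h1
      rw [hT'mk j hj] at h1
      exact (Submodule.Quotient.mk_eq_zero U).1 h1
    have hmul : ∀ i ∈ J, ∀ j ∈ J, T i * T j = 0 := by
      intro i hi j hj
      apply LinearMap.ext
      intro v
      rw [Module.End.mul_apply, (hUmem _).1 (himg j hj v) i hi]
      rfl
    rw [← hrel l hl, sum_mul, mul_sum, ← sum_sub_distrib]
    refine sum_eq_zero fun j hj => ?_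
    rw [smul_mul_assoc, mul_smul_comm, hmul j hj l hl, hmul l hl j hj, smul_zero, sub_zero]

end Pool.Agent.Q315.FM
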