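import Pool.Agent.Q315.FM.Main

/-!
# The prime two: graphs of quadratic nonresidues
-/

set_option autoImplicit false

namespace Pool.Agent.Q315.FM

open Finset

lemma zmod2 : ∀ z : ZMod 2, z ≠ 0 → z = 1 := by decide

/-- A condition on a finite set `J` with a symmetric relation `R` (a graph): there is an element which is related to at most one of the
other elements, or to all others but at most one; or `J` is the union of two nonempty disjoint subsets without relations between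
them, or with all relations between them. -/
def Thin {α : Type} (R : α → α → Prop) (J : Finset α) : Prop :=
  (∃ l ∈ J, {j : α | j ∈ J ∧ j ≠ l ∧ R l j}.Subsingleton ∨ {j : α | j ∈ J ∧ j ≠ l ∧ ¬ R l j}.Subsingleton) ∨
  (∃ K : Finset α, K ⊂ J ∧ K.Nonempty ∧
    ((∀ l ∈ K, ∀ j ∈ J, j ∉ K → ¬ R l j) ∨ (∀ l ∈ K, ∀ j ∈ J, j ∉ K → R l j)))

/-- Every subset of `T` with at least five elements satisfies the condition `Thin`. -/
def Solvable {α : Type} (R : α → α → Prop) (T : Set α) : Prop :=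
  ∀ J : Finset α, (∀ l ∈ J, l ∈ T) → 5 ≤ J.card → Thin R J

/-- sets with at most four elements -/
lemma thin_small {α : Type} [DecidableEq α] (R : α → α → Prop) (J : Finset α) (hJ : J.Nonempty) (h : J.card ≤ 4) : Thin R J := by
  classical
  obtain ⟨l, hl⟩ := hJ
  left
  refine ⟨l, hl, ?_⟩
  set X := (J.erase l).filter (fun j => R l j) with hX
  set Y := (J.erase l).filter (fun j => ¬ R l j) with hY
  have hcard : X.card + Y.card = J.card - 1 := by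
    rw [hX, hY, card_filter_add_card_filter_not, card_erase_of_mem hl]
  have h1 : X.card ≤ 1 ∨ Y.card ≤ 1 := by omega
  rcases h1 with h1 | h1
  · left
    rintro i ⟨hi, hil, hi'⟩ j ⟨hj, hjl, hj'⟩
    exact card_le_one.1 h1 i (mem_filter.2 ⟨mem_erase.2 ⟨hil, hi⟩, hi'⟩) j (mem_filter.2 ⟨mem_erase.2 ⟨hjl, hj⟩, hj'⟩)
  · right
    rintro i ⟨hi, hil, hi'⟩ j ⟨hj, hjl, hj'⟩
    exact card_le_one.1 h1 i (mem_filter.2 ⟨mem_erase.2 ⟨hil, hi⟩, hi'⟩) j (mem_filter.2 ⟨mem_erase.2 ⟨hjl, hj⟩, hj'⟩)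

theorem noSol_graph (n : ℕ) (lam : ℕ → ℕ → ZMod 2) (u : ℕ → ZMod 2) (T0 : Finset ℕ) (hu : ∀ l ∈ T0, u l = 1)
    (hsym : ∀ l ∈ T0, ∀ j ∈ T0, lam l j = lam j l)
    (hgood : ∀ J ⊆ T0, 5 ≤ J.card → Thin (fun l j => lam l j ≠ 0) J) :
    ∀ J ⊆ T0, J.Nonempty → Pool.Agent.TH831.NA.NoSol n lam u J := by
  classical
  refine Pool.Agent.TH831.NA.noSol_ind fun J hJT hJne ih => ?_
  have huJ : ∀ l ∈ J, u l ≠ 0 := fun l hl => by rw [hu l (hJT hl)]; exact one_ne_zero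
  have hsymJ : ∀ l ∈ J, ∀ j ∈ J, (fun _ : ℕ => (1 : ZMod 2)) l * lam l j = (fun _ : ℕ => (1 : ZMod 2)) j * lam j l := by
    intro l hl j hj
    rw [hsym l (hJT hl) j (hJT hj)]
  have hthin : Thin (fun l j => lam l j ≠ 0) J := by
    by_cases h5 : 5 ≤ J.card
    · exact hgood J hJT h5
    · exact thin_small _ J hJne (by omega)
  rcases hthin with ⟨l, hl, h | h⟩ | ⟨K, hK, hKne, h | h⟩
  · refine Pool.Agent.TH831.NA.noSol_row huJ hsymJ (t := fun _ => 0) hl ?_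
    rintro i ⟨hi, hil, hi'⟩ j ⟨hj, hjl, hj'⟩
    rw [zero_mul] at hi' hj'
    exact h ⟨hi, hil, hi'⟩ ⟨hj, hjl, hj'⟩
  · refine Pool.Agent.TH831.NA.noSol_row huJ hsymJ (t := fun _ => 1) hl ?_
    rintro i ⟨hi, hil, hi'⟩ j ⟨hj, hjl, hj'⟩
    simp only [hu i (hJT hi), hu j (hJT hj), mul_one] at hi' hj'
    refine h ⟨hi, hil, fun h0 => hi' (zmod2 _ h0)⟩ ⟨hj, hjl, fun h0 => hj' (zmod2 _ h0)⟩
  · refine Pool.Agent.TH831.NA.noSol_sub (s := 0) hK.1 hsymJ (fun l hl j hj hjK => ?_) (ih K hK hKne)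
    rw [zero_mul, zero_mul]
    by_contra h0
    exact h l hl j hj hjK h0
  · refine Pool.Agent.TH831.NA.noSol_sub (s := 1) hK.1 hsymJ (fun l hl j hj hjK => ?_) (ih K hK hKne)
    rw [hu l (hJT (hK.1 hl)), hu j (hJT hj), one_mul, one_mul]
    exact zmod2 _ (h l hl j hj hjK)

/-- **The prime two.** -/
theorem tameFM_two (m n : ℕ) (hm : 2 ≤ m) (T : Set ℕ)
    (h : Solvable (fun l j : ℕ => ¬ IsSquare ((l : ℕ) : ZMod j)) {l | l ∈ T ∧ l.Prime ∧ 2 ^ m ∣ l - 1 ∧ ¬ 2 ^ (m + 1) ∣ l - 1}) :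
    TameFM 2 m n T := by
  classical
  have : Fact (Nat.Prime 2) := ⟨Nat.prime_two⟩
  have hm' : 2 < 2 ^ m := by
    calc 2 < 2 ^ 2 := by norm_num
      _ ≤ 2 ^ m := Nat.pow_le_pow_right (by norm_num) hm
  refine tameFM_of 2 m n hm' T fun χ hχ T0 hT0 => ?_
  have hdvd : ∀ l ∈ T0, 2 ∣ l - 1 := fun l hl => (dvd_pow_self 2 (by omega)).trans (hT0 l hl).2.2.2.1
  have hker : ∀ l ∈ T0, ∀ x, χ l x = 1 ↔ x ^ ((l - 1) / 2) = 1 := fun l hl x =>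
    Pool.Agent.TH831.NA.char_ker (hT0 l hl).2.1 (hdvd l hl) (hχ l (hT0 l hl).2.1 (hdvd l hl)) x
  have hlk0 : ∀ l ∈ T0, ∀ j ∈ T0, j ≠ l → (lk χ l j = 0 ↔ IsSquare (l : ZMod j)) := by
    intro l hl j hj hjl
    rw [Pool.Agent.TH146.FM.lk_eq_zero_iff (hT0 j hj).2.1 (hdvd j hj) (hT0 l hl).2.1 (Ne.symm hjl) (hker j hj),
      isSquare_iff_exists_sq]
    exact ⟨fun ⟨y, hy⟩ => ⟨y, hy.symm⟩, fun ⟨y, hy⟩ => ⟨y, hy.symm⟩⟩
  have hmod4 : ∀ l ∈ T0, l % 4 = 1 := by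
    intro l hl
    have h4 : 4 ∣ l - 1 := by
      have : (2 : ℕ) ^ 2 ∣ 2 ^ m := pow_dvd_pow 2 hm
      exact this.trans (hT0 l hl).2.2.2.1
    have := (hT0 l hl).2.1.two_le
    omega
  have hsym0 : ∀ l ∈ T0, ∀ j ∈ T0, lk χ l j = lk χ j l := by
    intro l hl j hj
    by_cases hjl : j = l
    · rw [hjl]
    have i1 : Fact l.Prime := ⟨(hT0 l hl).2.1⟩
    have i2 : Fact j.Prime := ⟨(hT0 j hj).2.1⟩
    have h1 := hlk0 l hl j hj hjl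
    have h2 := hlk0 j hj l hl (Ne.symm hjl)
    rw [ZMod.exists_sq_eq_prime_iff_of_mod_four_eq_one (hmod4 j hj) (hT0 l hl).2.2.1, ← h2] at h1
    by_cases h0 : lk χ l j = 0
    · rw [h0, h1.1 h0]
    · rw [zmod2 _ h0, zmod2 _ fun h => h0 (h1.2 h)]
  refine noSol_graph n (lk χ) _ T0 (fun l hl => zmod2 _ (level_ne_zero (hT0 l hl).2.2.2.1 (hT0 l hl).2.2.2.2)) hsym0 ?_
  intro J hJ h5
  have h6 := h J (fun l hl => ⟨(hT0 l (hJ hl)).1, (hT0 l (hJ hl)).2.1, (hT0 l (hJ hl)).2.2.2.1, (hT0 l (hJ hl)).2.2.2.2⟩) h5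
  have key : ∀ l ∈ J, ∀ j ∈ J, j ≠ l → (lk χ l j ≠ 0 ↔ ¬ IsSquare ((l : ℕ) : ZMod j)) := fun l hl j hj hjl =>
    not_congr (hlk0 l (hJ hl) j (hJ hj) hjl)
  rcases h6 with ⟨l, hl, h7 | h7⟩ | ⟨K, hK, hKne, h7 | h7⟩
  · refine Or.inl ⟨l, hl, Or.inl ?_⟩
    rintro i ⟨hi, hil, hi'⟩ j ⟨hj, hjl, hj'⟩
    exact h7 ⟨hi, hil, (key l hl i hi hil).1 hi'⟩ ⟨hj, hjl, (key l hl j hj hjl).1 hj'⟩
  · refine Or.inl ⟨l, hl, Or.inr ?_⟩
    rintro i ⟨hi, hil, hi'⟩ j ⟨hj, hjl, hj'⟩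
    exact h7 ⟨hi, hil, fun h8 => hi' ((key l hl i hi hil).2 h8)⟩ ⟨hj, hjl, fun h8 => hj' ((key l hl j hj hjl).2 h8)⟩
  · refine Or.inr ⟨K, hK, hKne, Or.inl fun l hl j hj hjK h8 => ?_⟩
    have hjl : j ≠ l := fun h => hjK (h ▸ hl)
    exact h7 l hl j hj hjK ((key l (hK.1 hl) j hj hjl).1 h8)
  · refine Or.inr ⟨K, hK, hKne, Or.inr fun l hl j hj hjK => ?_⟩
    have hjl : j ≠ l := fun h => hjK (h ▸ hl)
    exact (key l (hK.1 hl) j hj hjl).2 (h7 l hl j hj hjK)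

end Pool.Agent.Q315.FM
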