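import Pool.Agent.TH831.NA.NA9

/-!
# Tame representations: from the linear algebra to Galois representations
-/

set_option autoImplicit false

open NumberField IsLocalRing

namespace Pool.Agent.Q315.FM

/-- The representation `ρ` of the absolute Galois group of `ℚ` is unramified at the prime ideal `P` of the ring of all algebraic
integers: the inertia group at `P` acts trivially. -/
def UnramifiedAt {n : ℕ} {A : Type} [CommRing A] (ρ : Gal(AlgebraicClosure ℚ/ℚ) →* GL (Fin n) A)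
    (P : Ideal (𝓞 (AlgebraicClosure ℚ))) : Prop :=
  ∀ τ : Gal(AlgebraicClosure ℚ/ℚ), (∀ x : 𝓞 (AlgebraicClosure ℚ), τ • x - x ∈ P) → ρ τ = 1

/-- `ρ` is unramified at all primes that do not lie above a prime number in `S` (in particular at the primes above `p`, if
`p ∉ S`). -/
def UnramifiedOutside {n : ℕ} {A : Type} [CommRing A] (S : Finset ℕ) (ρ : Gal(AlgebraicClosure ℚ/ℚ) →* GL (Fin n) A) : Prop :=
  ∀ P : Ideal (𝓞 (AlgebraicClosure ℚ)), P.IsMaximal → (∀ l ∈ S, (l : 𝓞 (AlgebraicClosure ℚ)) ∉ P) → UnramifiedAt ρ P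

/-- The inertia groups at the primes which lie above a prime number in `S` act trivially modulo `p ^ m`. -/
def InertiaTrivialMod {n : ℕ} {A : Type} [CommRing A] (p m : ℕ) (S : Finset ℕ)
    (ρ : Gal(AlgebraicClosure ℚ/ℚ) →* GL (Fin n) A) : Prop :=
  ∀ P : Ideal (𝓞 (AlgebraicClosure ℚ)), P.IsMaximal → (∃ l ∈ S, (l : 𝓞 (AlgebraicClosure ℚ)) ∈ P) →
    ∀ τ : Gal(AlgebraicClosure ℚ/ℚ), (∀ x : 𝓞 (AlgebraicClosure ℚ), τ • x - x ∈ P) →
      ∀ i j, (p : A) ^ m ∣ ((ρ τ : Matrix (Fin n) (Fin n) A) - 1) i j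

/-- **The tame Fontaine-Mazur property of a set `T` of prime numbers, in dimension `n`, for the prime `p` and the level `p ^ m`.**
Let `S` be any finite set of prime numbers, different from `p` and not congruent to `1` modulo `p ^ (m + 1)`, such that all members
of `S` which are congruent to `1` modulo `p ^ m` belong to `T`. Let `A` be any Noetherian local ring of residue characteristic `p`
with its adic topology. Then every continuous representation of the absolute Galois group of `ℚ` in `GL_n(A)` which is unramified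
outside `S`, and trivial modulo `p ^ m` on the inertia groups at the primes in `S`, has finite image. It is trivial if
`p ^ (m + 1) a = 0` implies `p ^ m a = 0` in `A`, in particular if `p` is not a zero divisor in `A`. -/
def TameFM (p m n : ℕ) (T : Set ℕ) : Prop :=
  ∀ S : Finset ℕ, (∀ l ∈ S, l.Prime ∧ l ≠ p ∧ ¬ p ^ (m + 1) ∣ l - 1) → (∀ l ∈ S, p ^ m ∣ l - 1 → l ∈ T) →
    ∀ (A : Type) [CommRing A] [IsLocalRing A] [IsNoetherianRing A] [TopologicalSpace A],
      IsAdic (maximalIdeal A) → (p : A) ∈ maximalIdeal A →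
        ∀ ρ : Gal(AlgebraicClosure ℚ/ℚ) →* GL (Fin n) A, Continuous ρ → UnramifiedOutside S ρ → InertiaTrivialMod p m S ρ →
          (Set.range ρ).Finite ∧ ((∀ a : A, (p : A) ^ (m + 1) * a = 0 → (p : A) ^ m * a = 0) → ∀ g, ρ g = 1)

/-- the linking numbers -/
noncomputable abbrev lk {p : ℕ} (χ : ∀ j : ℕ, (ZMod j)ˣ →* Multiplicative (ZMod p)) := Pool.Agent.W569.TG.lk χ

theorem main (p : ℕ) [Fact p.Prime] (m n : ℕ) (hm : 2 < p ^ m) (S : Finset ℕ)
    (hS : ∀ l ∈ S, l.Prime ∧ l ≠ p ∧ ¬ p ^ (m + 1) ∣ l - 1)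
    (χ : ∀ j : ℕ, (ZMod j)ˣ →* Multiplicative (ZMod p))
    (hχ : ∀ l ∈ S, p ∣ l - 1 → ∃ x, χ l x ≠ 1)
    (hNo : ∀ J ⊆ S.filter (fun l => p ^ m ∣ l - 1), J.Nonempty → Pool.Agent.TH831.NA.NoSol n (lk χ)
      (fun l => (((l - 1) / p ^ m : ℕ) : ZMod p)) J)
    (A : Type) [CommRing A] [IsLocalRing A] [IsNoetherianRing A]
    [TopologicalSpace A] (hA : IsAdic (maximalIdeal A)) (hpA : (p : A) ∈ maximalIdeal A)
    (ρ : Gal(AlgebraicClosure ℚ/ℚ) →* GL (Fin n) A) (hρ : Continuous ρ)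
    (hur : UnramifiedOutside S ρ) (hI : InertiaTrivialMod p m S ρ) :
    (Set.range ρ).Finite ∧
    ((∀ a : A, (p : A) ^ (m + 1) * a = 0 → (p : A) ^ m * a = 0) → ∀ g, ρ g = 1) := by
  classical
  have hp : p.Prime := Fact.out
  have hcts := TH831.NA.cts_memN hA hρ
  have hur' : ∀ g ∈ TH831.OE.UrT S, ρ g = 1 := fun g ⟨P, hP, h2, h3⟩ => hur P hP h2 g h3
  have hcong : ∀ g i j, (p : A) ^ m ∣ ((ρ g : Matrix (Fin n) (Fin n) A) - 1) i j := by
    intro g i j
    rw [← Ideal.mem_span_singleton]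
    refine TH831.NA.cong_of_inertia hcts (Ideal.span {(p : A) ^ m}) (fun P hP τ hτ => ?_) g i j
    by_cases hSP : ∃ l ∈ S, (l : 𝓞 (AlgebraicClosure ℚ)) ∈ P
    · exact fun i j => Ideal.mem_span_singleton.2 (hI P hP hSP τ hτ i j)
    · intro i j
      have h1 : ρ τ = 1 := hur P hP (fun l hl hlP => hSP ⟨l, hl, hlP⟩) τ hτ
      have h2 : ((ρ τ : Matrix (Fin n) (Fin n) A) - 1) i j ∈ Ideal.span {(p : A) ^ m} := by
        rw [h1, Units.val_one, sub_self]
        exact Ideal.zero_mem _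
      exact h2
  have hcong' : ∀ g, ∃ α : Matrix (Fin n) (Fin n) A,
      (ρ g : Matrix (Fin n) (Fin n) A) = 1 + ((p : A) ^ m) • α := by
    intro g
    choose b hb using hcong g
    refine ⟨Matrix.of b, ?_⟩
    rw [← sub_eq_iff_eq_add']
    ext i j
    rw [hb, Matrix.smul_apply, Matrix.of_apply, smul_eq_mul]
  have htor := TH831.NA.entries_tor hpA hm hS hχ hNo hcts hur' hcong'
  refine ⟨?_, fun hreg g => ?_⟩
  · obtain ⟨d⟩ := TH831.NA.exists_dt S (fun l hl => ⟨(hS l hl).1, (hS l hl).2.1⟩) χ hχ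
    exact TH831.NA.fin_image hpA hm d hcts hur' hcong' htor
  · have hregk : ∀ (k : ℕ) (a : A), (p : A) ^ (m + k) * a = 0 → (p : A) ^ m * a = 0 := by
      intro k
      induction k with
      | zero => exact fun a h => h
      | succ k ih =>
        intro a h
        have h1 : (p : A) ^ (m + 1) * ((p : A) ^ k * a) = 0 := by
          rw [← h]
          ring
        have h2 := hreg _ h1
        apply ih
        rw [pow_add, mul_assoc]
        exact h2
    apply Units.ext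
    rw [Units.val_one, ← sub_eq_zero]
    ext i j
    obtain ⟨b, hb⟩ := hcong g i j
    obtain ⟨k, hk⟩ := htor g i j
    have hk' : (p : A) ^ k * ((ρ g : Matrix (Fin n) (Fin n) A) - 1) i j = 0 := hk
    rw [Matrix.zero_apply, hb]
    rw [hb, ← mul_assoc, ← pow_add, add_comm] at hk'
    exact hregk k b hk'

/-- nontrivial characters of order `p` exist -/
lemma exists_char (p : ℕ) [Fact p.Prime] (l : ℕ) (hl : l.Prime) (hpl : p ∣ l - 1) :
    ∃ χ : (ZMod l)ˣ →* Multiplicative (ZMod p), ∃ x, χ x ≠ 1 := by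
  have : Fact l.Prime := ⟨hl⟩
  have hcard : Nat.card (ZMod l)ˣ = l - 1 := by
    rw [Nat.card_eq_fintype_card, ZMod.card_units_eq_totient, Nat.totient_prime hl]
  have hdvd : p ∣ Nat.card (ZMod l)ˣ := by rw [hcard]; exact hpl
  let e := zmodCyclicMulEquiv (G := (ZMod l)ˣ) inferInstance
  let f : Multiplicative (ZMod (Nat.card (ZMod l)ˣ)) →* Multiplicative (ZMod p) :=
    AddMonoidHom.toMultiplicative (ZMod.castHom hdvd (ZMod p)).toAddMonoidHom
  refine ⟨f.comp e.symm.toMonoidHom, e (Multiplicative.ofAdd 1), ?_⟩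
  intro h
  have h1 : f (Multiplicative.ofAdd 1) = 1 := by
    have : (f.comp e.symm.toMonoidHom) (e (Multiplicative.ofAdd 1)) = f (Multiplicative.ofAdd 1) := by
      simp
    rw [← this]
    exact h
  have h2 : (ZMod.castHom hdvd (ZMod p)) 1 = 0 := by
    have := congrArg Multiplicative.toAdd h1
    exact this
  rw [map_one] at h2
  exact one_ne_zero h2

/-- **The reduction of the tame Fontaine-Mazur property to linear algebra.** -/
theorem tameFM_of (p : ℕ) [Fact p.Prime] (m n : ℕ) (hm : 2 < p ^ m) (T : Set ℕ)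
    (h : ∀ χ : ∀ j : ℕ, (ZMod j)ˣ →* Multiplicative (ZMod p), (∀ l : ℕ, l.Prime → p ∣ l - 1 → ∃ x, χ l x ≠ 1) →
      ∀ T0 : Finset ℕ, (∀ l ∈ T0, l ∈ T ∧ l.Prime ∧ l ≠ p ∧ p ^ m ∣ l - 1 ∧ ¬ p ^ (m + 1) ∣ l - 1) →
        ∀ J ⊆ T0, J.Nonempty → Pool.Agent.TH831.NA.NoSol n (lk χ) (fun l => (((l - 1) / p ^ m : ℕ) : ZMod p)) J) :
    TameFM p m n T := by
  classical
  intro S hS hST A _ _ _ _ hA hpA ρ hρ hur hI
  let χ : ∀ j : ℕ, (ZMod j)ˣ →* Multiplicative (ZMod p) := fun j =>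
    if hj : j.Prime ∧ p ∣ j - 1 then (exists_char p j hj.1 hj.2).choose else 1
  have hχ : ∀ l : ℕ, l.Prime → p ∣ l - 1 → ∃ x, χ l x ≠ 1 := by
    intro l hl hpl
    have := (exists_char p l hl hpl).choose_spec
    simp only [χ]
    rw [dif_pos ⟨hl, hpl⟩]
    exact this
  refine main p m n hm S hS χ (fun l hl => hχ l (hS l hl).1) ?_ A hA hpA ρ hρ hur hI
  refine h χ hχ _ fun l hl => ?_
  rw [Finset.mem_filter] at hl
  exact ⟨hST l hl.1 hl.2, (hS l hl.1).1, (hS l hl.1).2.1, hl.2, (hS l hl.1).2.2⟩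

/-- the numbers `u l` are not zero -/
lemma level_ne_zero {p m l : ℕ} (h1 : p ^ m ∣ l - 1) (h2 : ¬ p ^ (m + 1) ∣ l - 1) :
    (((l - 1) / p ^ m : ℕ) : ZMod p) ≠ 0 := by
  rw [Ne, ZMod.natCast_eq_zero_iff]
  rintro ⟨d, hd⟩
  apply h2
  refine ⟨d, ?_⟩
  rw [pow_succ, mul_assoc, ← hd, Nat.mul_div_cancel' h1]

end Pool.Agent.Q315.FM
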