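import Pool.Agent.Q315.FM.Bil

/-!
# Equidistribution of the residue patterns of tuples of primes
-/

set_option autoImplicit false

namespace Pool.Agent.Q315.FM

open Finset

/-- the `k`-tuples with entries in `P` -/
noncomputable def tup (k : ℕ) (P : Finset ℕ) : Finset (Fin k → ℕ) := Fintype.piFinset fun _ => P

lemma mem_tup {k : ℕ} {P : Finset ℕ} {t : Fin k → ℕ} : t ∈ tup k P ↔ ∀ i, t i ∈ P := Fintype.mem_piFinset

lemma card_tup (k : ℕ) (P : Finset ℕ) : (tup k P).card = P.card ^ k := by
  unfold tup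
  rw [Fintype.card_piFinset, prod_const, card_univ, Fintype.card_fin]

lemma update_mem {k : ℕ} {P : Finset ℕ} {t : Fin k → ℕ} (ht : t ∈ tup k P) {i : Fin k} {u : ℕ} (hu : u ∈ P) :
    Function.update t i u ∈ tup k P := by
  rw [mem_tup] at ht ⊢
  intro j
  by_cases h : j = i
  · subst h; rw [Function.update_self]; exact hu
  · rw [Function.update_of_ne h]; exact ht j

lemma avg (k : ℕ) (P : Finset ℕ) (i : Fin k) (F : (Fin k → ℕ) → ℝ) :
    ∑ t ∈ tup k P, ∑ u ∈ P, F (Function.update t i u) = P.card * ∑ t ∈ tup k P, F t := by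
  have h1 : ∑ t ∈ tup k P, ∑ u ∈ P, F (Function.update t i u) =
      ∑ x ∈ tup k P ×ˢ P, F (Function.update x.1 i x.2) := by rw [sum_product]
  have h2 : (P.card : ℝ) * ∑ t ∈ tup k P, F t = ∑ x ∈ tup k P ×ˢ P, F x.1 := by
    rw [sum_product]
    simp only [sum_const, nsmul_eq_mul]
    rw [mul_sum]
  rw [h1, h2]
  refine sum_nbij' (fun x => (Function.update x.1 i x.2, x.1 i)) (fun x => (Function.update x.1 i x.2, x.1 i))
    ?_ ?_ ?_ ?_ ?_
  · intro x hx
    rw [mem_product] at hx ⊢
    exact ⟨update_mem hx.1 hx.2, mem_tup.1 hx.1 i⟩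
  · intro x hx
    rw [mem_product] at hx ⊢
    exact ⟨update_mem hx.1 hx.2, mem_tup.1 hx.1 i⟩
  · intro x _
    simp
  · intro x _
    simp
  · intro x _
    rfl

/-- the product of the symbols over a set of pairs -/
noncomputable def M {k : ℕ} (E : Finset (Fin k × Fin k)) (t : Fin k → ℕ) : ℝ := ∏ e ∈ E, J (t e.1) (t e.2)

lemma abs_prod_le {ι : Type*} (s : Finset ι) (f : ι → ℝ) (h : ∀ i ∈ s, |f i| ≤ 1) : |∏ i ∈ s, f i| ≤ 1 := by
  rw [abs_prod]
  exact prod_le_one (fun _ _ => abs_nonneg _) h

lemma sum_M (k : ℕ) (P : Finset ℕ) (B : ℝ)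
    (hB : ∀ a b : ℕ → ℝ, (∀ m, |a m| ≤ 1) → (∀ n, |b n| ≤ 1) → |∑ m ∈ P, ∑ n ∈ P, a m * b n * J m n| ≤ B)
    (E : Finset (Fin k × Fin k)) (hE : ∀ e ∈ E, e.1 < e.2) (hne : E.Nonempty) :
    (P.card : ℝ) ^ 2 * |∑ t ∈ tup k P, M E t| ≤ (P.card : ℝ) ^ k * B := by
  classical
  obtain ⟨e0, he0⟩ := hne
  have hlt := hE e0 he0
  set i := e0.1 with hi
  set j := e0.2 with hj
  have hij : i ≠ j := ne_of_lt hlt
  have h1 : (P.card : ℝ) ^ 2 * ∑ t ∈ tup k P, M E t =
      ∑ t ∈ tup k P, ∑ u ∈ P, ∑ v ∈ P, M E (Function.update (Function.update t i u) j v) := by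
    rw [avg k P i (fun t => ∑ v ∈ P, M E (Function.update t j v)), avg k P j (M E)]
    ring
  have h2 : ∀ t ∈ tup k P,
      |∑ u ∈ P, ∑ v ∈ P, M E (Function.update (Function.update t i u) j v)| ≤ B := by
    intro t _
    set E1 := (E.erase e0).filter (fun e => i = e.1 ∨ i = e.2) with hE1
    set E2 := (E.erase e0).filter (fun e => ¬ (i = e.1 ∨ i = e.2)) with hE2
    have h3 : ∀ u v, M E (Function.update (Function.update t i u) j v) =
        M E1 (Function.update t i u) * M E2 (Function.update t j v) * J u v := by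
      intro u v
      unfold M
      rw [← mul_prod_erase E _ he0, ← prod_filter_mul_prod_filter_not (E.erase e0) (fun e => i = e.1 ∨ i = e.2)]
      rw [← hi, ← hj, Function.update_of_ne hij, Function.update_self, Function.update_self]
      have h4 : ∏ e ∈ E1, J (Function.update (Function.update t i u) j v e.1)
          (Function.update (Function.update t i u) j v e.2) =
          ∏ e ∈ E1, J (Function.update t i u e.1) (Function.update t i u e.2) := by
        apply prod_congr rfl
        intro e he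
        rw [hE1, mem_filter, mem_erase] at he
        have hee := hE e he.1.2
        have n1 : e.1 ≠ j := by
          intro h
          rcases he.2 with h' | h'
          · exact hij (h'.trans h)
          · rw [h, ← h'] at hee
            exact absurd hlt (not_lt.2 hee.le)
        have n2 : e.2 ≠ j := by
          intro h
          rcases he.2 with h' | h'
          · exact he.1.1 (Prod.ext h'.symm h)
          · exact hij (h'.trans h)
        rw [Function.update_of_ne n1, Function.update_of_ne n2]
      have h5 : ∏ e ∈ E2, J (Function.update (Function.update t i u) j v e.1)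
          (Function.update (Function.update t i u) j v e.2) =
          ∏ e ∈ E2, J (Function.update t j v e.1) (Function.update t j v e.2) := by
        apply prod_congr rfl
        intro e he
        rw [hE2, mem_filter] at he
        have hh := not_or.1 he.2
        rw [Function.update_comm hij, Function.update_of_ne (Ne.symm hh.1), Function.update_of_ne (Ne.symm hh.2)]
      rw [h4, h5]
      ring
    simp only [h3]
    exact hB (fun u => M E1 (Function.update t i u)) (fun v => M E2 (Function.update t j v))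
      (fun u => abs_prod_le _ _ fun _ _ => J_abs _ _) (fun v => abs_prod_le _ _ fun _ _ => J_abs _ _)
  have h6 : (P.card : ℝ) ^ 2 * |∑ t ∈ tup k P, M E t| = |(P.card : ℝ) ^ 2 * ∑ t ∈ tup k P, M E t| := by
    rw [abs_mul, abs_of_nonneg (show (0 : ℝ) ≤ (P.card : ℝ) ^ 2 by positivity)]
  rw [h6, h1]
  refine (abs_sum_le_sum_abs _ _).trans ((sum_le_sum h2).trans (le_of_eq ?_))
  rw [sum_const, card_tup, nsmul_eq_mul]
  push_cast
  ring

/-- the pairs `i < j` -/
def pairs (k : ℕ) : Finset (Fin k × Fin k) := univ.filter fun e => e.1 < e.2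

/-- the sign given by a set of pairs -/
def sg {k : ℕ} (G : Finset (Fin k × Fin k)) (e : Fin k × Fin k) : ℝ := if e ∈ G then -1 else 1

/-- The symbols of the pairs `i < j` are `-1` on `G` and `1` outside `G`. -/
def Pattern {k : ℕ} (G : Finset (Fin k × Fin k)) (t : Fin k → ℕ) : Prop :=
  ∀ e ∈ pairs k, J (t e.1) (t e.2) = sg G e

lemma J_prime (p q : ℕ) (hp : p.Prime) (hq : q.Prime) (hpq : p ≠ q) : J p q = 1 ∨ J p q = -1 := by
  unfold J
  have : NeZero q := ⟨hq.ne_zero⟩
  have h : jacobiSym (p : ℤ) q ≠ 0 := by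
    rw [Ne, jacobiSym.eq_zero_iff_not_coprime, not_not, Int.gcd_natCast_natCast]
    exact (Nat.coprime_primes hp hq).2 hpq
  rcases jacobiSym.trichotomy (p : ℤ) q with h1 | h1 | h1
  · exact absurd h1 h
  · left; rw [h1]; norm_num
  · right; rw [h1]; norm_num

open Classical in
/-- **Every pattern has at least the expected number of tuples, up to a small error.** -/
theorem pattern_lower (k : ℕ) (P : Finset ℕ) (hP : ∀ l ∈ P, l.Prime) (B : ℝ)
    (hB : ∀ a b : ℕ → ℝ, (∀ m, |a m| ≤ 1) → (∀ n, |b n| ≤ 1) → |∑ m ∈ P, ∑ n ∈ P, a m * b n * J m n| ≤ B)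
    (hPne : P.Nonempty) (G : Finset (Fin k × Fin k)) :
    (P.card : ℝ) ^ k / 2 ^ (pairs k).card - B / (P.card : ℝ) ^ 2 * (P.card : ℝ) ^ k -
      (k : ℝ) ^ 2 / P.card * (P.card : ℝ) ^ k ≤
      (((tup k P).filter fun t => Function.Injective t ∧ Pattern G t).card : ℝ) := by
  have hc : (0 : ℝ) < P.card := by exact_mod_cast hPne.card_pos
  have hB0 : 0 ≤ B := (abs_nonneg _).trans (hB (fun _ => 0) (fun _ => 0) (by simp) (by simp))
  set C := (pairs k).card with hC
  -- the product
  set F : (Fin k → ℕ) → ℝ := fun t => (∏ e ∈ pairs k, (1 + sg G e * J (t e.1) (t e.2))) / 2 ^ C with hF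
  have hsg : ∀ e, |sg G e| = 1 := by
    intro e
    unfold sg
    split_ifs <;> norm_num
  have hfac : ∀ (t : Fin k → ℕ) e, 0 ≤ 1 + sg G e * J (t e.1) (t e.2) ∧ 1 + sg G e * J (t e.1) (t e.2) ≤ 2 := by
    intro t e
    have h1 : |sg G e * J (t e.1) (t e.2)| ≤ 1 := by
      rw [abs_mul, hsg, one_mul]
      exact J_abs _ _
    have := abs_le.1 h1
    constructor <;> linarith [this.1, this.2]
  have hF1 : ∀ t, F t ≤ 1 := by
    intro t
    rw [hF]
    simp only
    rw [div_le_one (by positivity)]
    calc ∏ e ∈ pairs k, (1 + sg G e * J (t e.1) (t e.2)) ≤ ∏ e ∈ pairs k, (2 : ℝ) :=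
          prod_le_prod (fun e _ => (hfac t e).1) (fun e _ => (hfac t e).2)
      _ = 2 ^ C := by rw [prod_const]
  have hF0 : ∀ t ∈ tup k P, Function.Injective t → ¬ Pattern G t → F t = 0 := by
    intro t ht hinj hpat
    unfold Pattern at hpat
    push Not at hpat
    obtain ⟨e, he, hne⟩ := hpat
    rw [hF]
    simp only
    rw [div_eq_zero_iff]
    left
    apply prod_eq_zero he
    have hlt : e.1 < e.2 := (mem_filter.1 he).2
    have h1 := J_prime (t e.1) (t e.2) (hP _ (mem_tup.1 ht _)) (hP _ (mem_tup.1 ht _))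
      (fun h => absurd (hinj h) (ne_of_lt hlt))
    unfold sg at hne ⊢
    split_ifs at hne ⊢ with h
    · rcases h1 with h1 | h1
      · rw [h1]; norm_num
      · exact absurd h1 hne
    · rcases h1 with h1 | h1
      · exact absurd h1 hne
      · rw [h1]; norm_num
  -- upper bound of the sum by the count
  have h1 : ∑ t ∈ tup k P, F t ≤ (((tup k P).filter fun t => Function.Injective t ∧ Pattern G t).card : ℝ) +
      (((tup k P).filter fun t => ¬ Function.Injective t).card : ℝ) := by
    rw [← sum_filter_add_sum_filter_not (tup k P) (fun t => Function.Injective t)]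
    apply add_le_add
    · rw [← sum_filter_add_sum_filter_not ((tup k P).filter fun t => Function.Injective t) (fun t => Pattern G t)]
      rw [filter_filter, filter_filter]
      have e1 : ∑ t ∈ (tup k P).filter (fun t => Function.Injective t ∧ ¬ Pattern G t), F t = 0 := by
        apply sum_eq_zero
        intro t ht
        rw [mem_filter] at ht
        exact hF0 t ht.1 ht.2.1 ht.2.2
      rw [e1, add_zero]
      refine (sum_le_sum fun t _ => hF1 t).trans (le_of_eq ?_)
      rw [sum_const, nsmul_eq_mul, mul_one]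
    · refine (sum_le_sum fun t _ => hF1 t).trans (le_of_eq ?_)
      rw [sum_const, nsmul_eq_mul, mul_one]
  -- the tuples with a repetition
  have h2 : (((tup k P).filter fun t => ¬ Function.Injective t).card : ℝ) ≤
      (k : ℝ) ^ 2 / P.card * (P.card : ℝ) ^ k := by
    have hsub : (tup k P).filter (fun t => ¬ Function.Injective t) ⊆
        (univ : Finset (Fin k × Fin k)).biUnion fun e =>
          (tup k P).filter fun t => e.1 ≠ e.2 ∧ t e.1 = t e.2 := by
      intro t ht
      rw [mem_filter] at ht
      have h := ht.2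
      unfold Function.Injective at h
      push Not at h
      obtain ⟨i, j, hij, hne⟩ := h
      exact mem_biUnion.2 ⟨(i, j), mem_univ _, mem_filter.2 ⟨ht.1, hne, hij⟩⟩
    have hone : ∀ e : Fin k × Fin k, P.card * ((tup k P).filter fun t => e.1 ≠ e.2 ∧ t e.1 = t e.2).card ≤
        P.card ^ k := by
      intro e
      by_cases he : e.1 = e.2
      · simp [he]
      rw [← card_tup k P, mul_comm, ← card_product]
      apply card_le_card_of_injOn (fun x => Function.update x.1 e.1 x.2)
      · intro x hx
        rw [mem_coe, mem_product, mem_filter] at hx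
        exact update_mem hx.1.1 hx.2
      · intro x hx y hy hxy
        rw [mem_coe, mem_product, mem_filter] at hx hy
        simp only at hxy
        have h3 : x.2 = y.2 := by
          have := congrFun hxy e.1
          rwa [Function.update_self, Function.update_self] at this
        have h4 : ∀ i, i ≠ e.1 → x.1 i = y.1 i := by
          intro i hi
          have := congrFun hxy i
          rwa [Function.update_of_ne hi, Function.update_of_ne hi] at this
        refine Prod.ext (funext fun i => ?_) h3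
        by_cases hi : i = e.1
        · rw [hi, hx.1.2.2, hy.1.2.2]
          exact h4 _ (Ne.symm he)
        · exact h4 i hi
    have h3 : P.card * ((tup k P).filter fun t => ¬ Function.Injective t).card ≤ k ^ 2 * P.card ^ k := by
      calc P.card * ((tup k P).filter fun t => ¬ Function.Injective t).card ≤
          P.card * ∑ e : Fin k × Fin k, ((tup k P).filter fun t => e.1 ≠ e.2 ∧ t e.1 = t e.2).card :=
            Nat.mul_le_mul_left _ ((card_le_card hsub).trans card_biUnion_le)
        _ = ∑ e : Fin k × Fin k, P.card * ((tup k P).filter fun t => e.1 ≠ e.2 ∧ t e.1 = t e.2).card := mul_sum _ _ _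
        _ ≤ ∑ e : Fin k × Fin k, P.card ^ k := sum_le_sum fun e _ => hone e
        _ = k ^ 2 * P.card ^ k := by
            rw [sum_const, card_univ, Fintype.card_prod, Fintype.card_fin, smul_eq_mul, sq]
    have h4 : (P.card : ℝ) * (((tup k P).filter fun t => ¬ Function.Injective t).card : ℝ) ≤
        (k : ℝ) ^ 2 * (P.card : ℝ) ^ k := by exact_mod_cast h3
    rw [div_mul_eq_mul_div, le_div_iff₀ hc]
    linarith
  -- lower bound of the sum
  have h3 : (P.card : ℝ) ^ k / 2 ^ C - B / (P.card : ℝ) ^ 2 * (P.card : ℝ) ^ k ≤ ∑ t ∈ tup k P, F t := by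
    have e1 : ∑ t ∈ tup k P, F t =
        (∑ E ∈ (pairs k).powerset, (∏ e ∈ E, sg G e) * ∑ t ∈ tup k P, M E t) / 2 ^ C := by
      rw [hF]
      simp only
      rw [← sum_div]
      congr 1
      have : ∀ t, ∏ e ∈ pairs k, (1 + sg G e * J (t e.1) (t e.2)) =
          ∑ E ∈ (pairs k).powerset, (∏ e ∈ E, sg G e) * M E t := by
        intro t
        rw [prod_one_add]
        exact sum_congr rfl fun E _ => by rw [prod_mul_distrib]; rfl
      simp only [this]
      rw [sum_comm]
      exact sum_congr rfl fun E _ => by rw [mul_sum]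
    have e2 : (∅ : Finset (Fin k × Fin k)) ∈ (pairs k).powerset := empty_mem_powerset _
    rw [e1, ← add_sum_erase _ _ e2]
    have e3 : (∏ e ∈ (∅ : Finset (Fin k × Fin k)), sg G e) * ∑ t ∈ tup k P, M ∅ t = (P.card : ℝ) ^ k := by
      unfold M
      simp only [prod_empty, one_mul, sum_const, card_tup, nsmul_eq_mul, mul_one]
      push_cast
      rfl
    rw [e3]
    have e4 : ∀ E ∈ (pairs k).powerset.erase ∅, -(B / (P.card : ℝ) ^ 2 * (P.card : ℝ) ^ k) ≤
        (∏ e ∈ E, sg G e) * ∑ t ∈ tup k P, M E t := by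
      intro E hE
      rw [mem_erase, mem_powerset] at hE
      have h5 := sum_M k P B hB E (fun e he => (mem_filter.1 (hE.2 he)).2) (nonempty_iff_ne_empty.2 hE.1)
      have h6 : |∑ t ∈ tup k P, M E t| ≤ B / (P.card : ℝ) ^ 2 * (P.card : ℝ) ^ k := by
        rw [div_mul_eq_mul_div, le_div_iff₀ (by positivity)]
        linarith
      have h7 : |∏ e ∈ E, sg G e| ≤ 1 := abs_prod_le _ _ fun e _ => (hsg e).le
      have h8 : |(∏ e ∈ E, sg G e) * ∑ t ∈ tup k P, M E t| ≤ B / (P.card : ℝ) ^ 2 * (P.card : ℝ) ^ k := by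
        rw [abs_mul]
        calc |∏ e ∈ E, sg G e| * |∑ t ∈ tup k P, M E t| ≤ 1 * |∑ t ∈ tup k P, M E t| :=
              mul_le_mul_of_nonneg_right h7 (abs_nonneg _)
          _ ≤ _ := by rw [one_mul]; exact h6
      exact (abs_le.1 h8).1
    have e5 : -(2 ^ C * (B / (P.card : ℝ) ^ 2 * (P.card : ℝ) ^ k)) ≤
        ∑ E ∈ (pairs k).powerset.erase ∅, (∏ e ∈ E, sg G e) * ∑ t ∈ tup k P, M E t := by
      have h9 := card_nsmul_le_sum _ _ _ e4
      rw [nsmul_eq_mul] at h9
      refine le_trans ?_ h9
      have h10 : (((pairs k).powerset.erase ∅).card : ℝ) ≤ 2 ^ C := by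
        have : ((pairs k).powerset.erase ∅).card ≤ 2 ^ C := by
          refine (card_le_card (erase_subset _ _)).trans (le_of_eq ?_)
          rw [card_powerset]
        exact_mod_cast this
      have h11 : 0 ≤ B / (P.card : ℝ) ^ 2 * (P.card : ℝ) ^ k := by positivity
      nlinarith
    rw [add_div]
    have h12 : -(B / (P.card : ℝ) ^ 2 * (P.card : ℝ) ^ k) ≤
        (∑ E ∈ (pairs k).powerset.erase ∅, (∏ e ∈ E, sg G e) * ∑ t ∈ tup k P, M E t) / 2 ^ C := by
      rw [le_div_iff₀ (by positivity)]
      linarith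
    linarith
  linarith

end Pool.Agent.Q315.FM
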