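import Pool.Agent.Q315.FM.Rams
import Pool.Agent.Q315.FM.Tup
import Pool.Agent.Helper112.MultLS

/-!
# Power residue symbols of order `p` between primes: equidistribution of rows

A bilinear estimate from the large sieve.
-/

set_option autoImplicit false

namespace Pool.Agent.Q315.FM

open Finset

section
variable {p : ℕ} [hp : Fact p.Prime]

/-- the additive character of `ℤ/p` -/
noncomputable def E (z : ZMod p) : ℂ := ZMod.stdAddChar z

lemma E_add (x y : ZMod p) : E (x + y) = E x * E y := AddChar.map_add_eq_mul _ _ _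

lemma E_zero : E (0 : ZMod p) = 1 := AddChar.map_zero_eq_one _

lemma E_norm (x : ZMod p) : ‖E x‖ = 1 := by
  unfold E
  rw [ZMod.stdAddChar_apply]
  exact Circle.norm_coe _

lemma E_sum (b : ZMod p) : ∑ x : ZMod p, E (x * b) = if b = 0 then (p : ℂ) else 0 := by
  have := AddChar.sum_mulShift b (ZMod.isPrimitive_stdAddChar p)
  unfold E
  rw [this]
  split_ifs
  · rw [ZMod.card]
  · exact Nat.cast_zero

lemma E_inj {x y : ZMod p} (h : E x = E y) : x = y := ZMod.injective_stdAddChar h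

/-- the Dirichlet character -/
noncomputable def dc (j : ℕ) (χ : (ZMod j)ˣ →* Multiplicative (ZMod p)) (e : ZMod p) : DirichletCharacter ℂ j :=
  MulChar.ofUnitHom ((((ZMod.stdAddChar (N := p)).mulShift e).toMonoidHom.comp χ).toHomUnits)

lemma dc_unit (j : ℕ) (χ : (ZMod j)ˣ →* Multiplicative (ZMod p)) (e : ZMod p) (u : (ZMod j)ˣ) :
    dc j χ e u = E (e * Multiplicative.toAdd (χ u)) := by
  unfold dc
  rw [MulChar.ofUnitHom_coe]
  rfl

lemma dc_prim {j : ℕ} (hj : j.Prime) {χ : (ZMod j)ˣ →* Multiplicative (ZMod p)} (hχ : ∃ x, χ x ≠ 1) {e : ZMod p} (he : e ≠ 0) :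
    (dc j χ e).IsPrimitive := by
  have : NeZero j := ⟨hj.ne_zero⟩
  rw [DirichletCharacter.isPrimitive_def]
  rcases (Nat.dvd_prime hj).1 (dc j χ e).conductor_dvd_level with h | h
  · exfalso
    rw [← DirichletCharacter.eq_one_iff_conductor_eq_one] at h
    obtain ⟨x, hx⟩ := hχ
    have h1 := dc_unit j χ e x
    rw [h, MulChar.one_apply_coe, ← E_zero (p := p)] at h1
    have h2 := E_inj h1
    rcases mul_eq_zero.1 h2.symm with h3 | h3
    · exact he h3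
    · exact hx h3
  · exact h

/-- the values at primes -/
lemma dc_prime {χ : ∀ j : ℕ, (ZMod j)ˣ →* Multiplicative (ZMod p)} {l j : ℕ} (hl : l.Prime) (hj : j.Prime) (hlj : l ≠ j) (e : ZMod p) :
    dc j (χ j) e (l : ZMod j) = E (e * lk χ l j) := by
  have hc : Nat.Coprime l j := (Nat.coprime_primes hl hj).2 hlj
  have h1 : (l : ZMod j) = (ZMod.unitOfCoprime l hc : (ZMod j)ˣ) := (ZMod.coe_unitOfCoprime l hc).symm
  rw [h1, dc_unit]
  unfold lk W569.TG.lk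
  rw [dif_pos hc]

lemma fiber2 (P : Finset ℕ) (hP : ∀ l ∈ P, l.Prime) (d : ℕ) :
    ((P ×ˢ P).filter (fun z => z.1 * z.2 = d)).card ≤ 4 := by
  classical
  rcases ((P ×ˢ P).filter (fun z => z.1 * z.2 = d)).eq_empty_or_nonempty with h | ⟨z, hz⟩
  · rw [h]; simp
  rw [mem_filter, mem_product] at hz
  obtain ⟨⟨h1, h2⟩, hz⟩ := hz
  set F : Finset ℕ := {z.1, z.2} with hF
  have hFc : F.card ≤ 2 := card_le_two
  have key : ∀ l : ℕ, l.Prime → l ∣ d → l ∈ F := by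
    intro l hl hld
    rw [← hz] at hld
    rw [hF]
    simp only [mem_insert, mem_singleton]
    have hpp : ∀ q ∈ P, l ∣ q → l = q := fun q hq h => (Nat.prime_dvd_prime_iff_eq hl (hP q hq)).1 h
    rcases hl.dvd_mul.1 hld with h | h
    · exact Or.inl (hpp _ h1 h)
    · exact Or.inr (hpp _ h2 h)
  have hsub : (P ×ˢ P).filter (fun z => z.1 * z.2 = d) ⊆ F ×ˢ F := by
    intro y hy
    rw [mem_filter, mem_product] at hy
    obtain ⟨⟨g1, g2⟩, hy⟩ := hy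
    rw [mem_product]
    exact ⟨key _ (hP _ g1) (by rw [← hy]; exact Dvd.intro _ rfl), key _ (hP _ g2) (by rw [← hy]; exact Dvd.intro_left _ rfl)⟩
  refine (card_le_card hsub).trans ?_
  rw [card_product]
  calc F.card * F.card ≤ 2 * 2 := Nat.mul_le_mul hFc hFc
    _ = 4 := by norm_num

/-- **The fourth moment.** -/
theorem fourth (N : ℕ) (P : Finset ℕ) (hP : ∀ l ∈ P, l.Prime ∧ l ≤ N) (χ : ∀ j : ℕ, (ZMod j)ˣ →* Multiplicative (ZMod p))
    (hχ : ∀ j ∈ P, ∃ x, χ j x ≠ 1) (e : ZMod p) (he : e ≠ 0) (a : ℕ → ℂ) (ha : ∀ m, ‖a m‖ ≤ 1) :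
    ∑ j ∈ P, ‖∑ l ∈ P, a l * dc j (χ j) e (l : ZMod j)‖ ^ 4 ≤ 48 * (N : ℝ) ^ 4 := by
  classical
  have hPN : P.card ≤ N := by
    have : P ⊆ Icc 1 N := fun l hl => mem_Icc.2 ⟨(hP l hl).1.pos, (hP l hl).2⟩
    simpa using card_le_card this
  set c : ℕ → ℂ := fun n => ∑ z ∈ (P ×ˢ P).filter (fun z => z.1 * z.2 = n), a z.1 * a z.2 with hc
  set r : ℕ → ℕ := fun n => ((P ×ˢ P).filter (fun z => z.1 * z.2 = n)).card with hr
  have hcr : ∀ n, ‖c n‖ ≤ r n := by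
    intro n
    refine (norm_sum_le _ _).trans ?_
    refine (sum_le_sum (g := fun _ => (1 : ℝ)) fun z _ => ?_).trans (le_of_eq ?_)
    · rw [norm_mul]
      exact mul_le_one₀ (ha _) (norm_nonneg _) (ha _)
    · rw [sum_const, nsmul_eq_mul, mul_one]
  have hmaps : ∀ z ∈ P ×ˢ P, z.1 * z.2 ∈ Icc 1 (N ^ 2) := by
    intro z hz
    rw [mem_product] at hz
    rw [mem_Icc]
    refine ⟨Nat.mul_pos (hP _ hz.1).1.pos (hP _ hz.2).1.pos, ?_⟩
    rw [sq]
    exact Nat.mul_le_mul (hP _ hz.1).2 (hP _ hz.2).2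
  have hsumr : ∑ n ∈ Icc 1 (N ^ 2), r n = P.card ^ 2 := by
    have := card_eq_sum_card_fiberwise hmaps
    rw [card_product] at this
    rw [sq P.card, this]
  have hc2 : ∑ n ∈ Icc 1 (N ^ 2), ‖c n‖ ^ 2 ≤ 4 * (N : ℝ) ^ 2 := by
    calc ∑ n ∈ Icc 1 (N ^ 2), ‖c n‖ ^ 2 ≤ ∑ n ∈ Icc 1 (N ^ 2), 4 * (r n : ℝ) := by
          apply sum_le_sum
          intro n _
          have h1 : (r n : ℝ) ≤ 4 := by exact_mod_cast fiber2 P (fun l hl => (hP l hl).1) n
          have h2 := hcr n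
          have h3 := norm_nonneg (c n)
          calc ‖c n‖ ^ 2 ≤ (r n : ℝ) ^ 2 := pow_le_pow_left₀ h3 h2 2
            _ = r n * r n := sq _
            _ ≤ 4 * r n := mul_le_mul_of_nonneg_right h1 (Nat.cast_nonneg _)
      _ = 4 * ((∑ n ∈ Icc 1 (N ^ 2), r n : ℕ) : ℝ) := by rw [← mul_sum]; push_cast; rfl
      _ = 4 * (P.card : ℝ) ^ 2 := by rw [hsumr]; push_cast; rfl
      _ ≤ 4 * (N : ℝ) ^ 2 := by
          apply mul_le_mul_of_nonneg_left _ (by norm_num)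
          exact pow_le_pow_left₀ (Nat.cast_nonneg _) (by exact_mod_cast hPN) 2
  have hls := Pool.Agent.Helper112.mult_large_sieve (N ^ 2) N c
  have hsq : ∀ j (ψ : DirichletCharacter ℂ j), (∑ l ∈ P, a l * ψ (l : ZMod j)) ^ 2 = ∑ n ∈ Icc 1 (N ^ 2), c n * ψ (n : ZMod j) := by
    intro j ψ
    rw [sq, sum_mul_sum, ← sum_product', ← sum_fiberwise_of_maps_to hmaps]
    refine sum_congr rfl fun n _ => ?_
    rw [hc, sum_mul]
    refine sum_congr rfl fun z hz => ?_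
    rw [← (mem_filter.1 hz).2, Nat.cast_mul, map_mul]
    ring
  have h1 : ∑ j ∈ P, ‖∑ l ∈ P, a l * dc j (χ j) e (l : ZMod j)‖ ^ 4 ≤
      ∑ f ∈ Icc 1 N, ((f : ℝ) / (Nat.totient f : ℝ)) *
        ∑ χ ∈ (univ : Finset (DirichletCharacter ℂ f)).filter (fun χ => χ.IsPrimitive),
          ‖∑ n ∈ Icc 1 (N ^ 2), c n * χ (n : ZMod f)‖ ^ 2 := by
    have hsub : P ⊆ Icc 1 N := fun l hl => mem_Icc.2 ⟨(hP l hl).1.pos, (hP l hl).2⟩
    refine le_trans ?_ (sum_le_sum_of_subset_of_nonneg hsub fun f _ _ => ?_)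
    · apply sum_le_sum
      intro j hj
      have hjp := (hP j hj).1
      have : NeZero j := ⟨hjp.ne_zero⟩
      have e1 : ‖∑ l ∈ P, a l * dc j (χ j) e (l : ZMod j)‖ ^ 4 = ‖∑ n ∈ Icc 1 (N ^ 2), c n * dc j (χ j) e (n : ZMod j)‖ ^ 2 := by
        rw [← hsq, norm_pow, ← pow_mul]
      rw [e1]
      have hmem : dc j (χ j) e ∈ (univ : Finset (DirichletCharacter ℂ j)).filter (fun χ => χ.IsPrimitive) :=
        mem_filter.2 ⟨mem_univ _, dc_prim hjp (hχ j hj) he⟩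
      have e2 := single_le_sum (f := fun ψ : DirichletCharacter ℂ j => ‖∑ n ∈ Icc 1 (N ^ 2), c n * ψ (n : ZMod j)‖ ^ 2)
        (fun _ _ => by positivity) hmem
      have ht : (0 : ℝ) < Nat.totient j := by exact_mod_cast Nat.totient_pos.2 hjp.pos
      have e3 : (1 : ℝ) ≤ (j : ℝ) / Nat.totient j := by
        rw [le_div_iff₀ ht, one_mul]
        exact_mod_cast Nat.totient_le j
      refine e2.trans ?_
      exact le_mul_of_one_le_left (sum_nonneg fun _ _ => by positivity) e3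
    · exact mul_nonneg (by positivity) (sum_nonneg fun _ _ => by positivity)
  refine h1.trans (hls.trans ?_)
  push_cast
  calc 6 * ((N : ℝ) ^ 2 + (N : ℝ) ^ 2) * ∑ n ∈ Icc 1 (N ^ 2), ‖c n‖ ^ 2 ≤ 6 * ((N : ℝ) ^ 2 + (N : ℝ) ^ 2) * (4 * (N : ℝ) ^ 2) :=
        mul_le_mul_of_nonneg_left hc2 (by positivity)
    _ = 48 * (N : ℝ) ^ 4 := by ring

/-- the bound -/
noncomputable def bo (N : ℕ) : ℝ := (48 * (N : ℝ) ^ 7) ^ (1 / 4 : ℝ) + N

/-- **The bilinear estimate.** -/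
theorem bilin (N : ℕ) (P : Finset ℕ) (hP : ∀ l ∈ P, l.Prime ∧ l ≤ N) (χ : ∀ j : ℕ, (ZMod j)ˣ →* Multiplicative (ZMod p))
    (hχ : ∀ j ∈ P, ∃ x, χ j x ≠ 1) (e : ZMod p) (he : e ≠ 0) (a : ℕ → ℂ) (ha : ∀ m, ‖a m‖ ≤ 1) :
    ∑ j ∈ P, ‖∑ l ∈ P, a l * E (e * lk χ l j)‖ ≤ bo N := by
  classical
  have hPN : P.card ≤ N := by
    have : P ⊆ Icc 1 N := fun l hl => mem_Icc.2 ⟨(hP l hl).1.pos, (hP l hl).2⟩
    simpa using card_le_card this
  have hPNr : (P.card : ℝ) ≤ N := by exact_mod_cast hPN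
  set S : ℕ → ℝ := fun j => ‖∑ l ∈ P, a l * dc j (χ j) e (l : ZMod j)‖ with hS
  have h1 : ∀ j ∈ P, ‖∑ l ∈ P, a l * E (e * lk χ l j)‖ ≤ S j + 1 := by
    intro j hj
    have e1 : ∑ l ∈ P, a l * E (e * lk χ l j) = ∑ l ∈ P, a l * dc j (χ j) e (l : ZMod j) +
        ∑ l ∈ P, a l * (E (e * lk χ l j) - dc j (χ j) e (l : ZMod j)) := by
      rw [← sum_add_distrib]
      exact sum_congr rfl fun l _ => by ring
    rw [e1]
    refine (norm_add_le _ _).trans (add_le_add le_rfl ?_)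
    rw [sum_eq_single j]
    · rw [norm_mul]
      have e2 : ((j : ℕ) : ZMod j) = 0 := ZMod.natCast_self j
      have hj1 : Nontrivial (ZMod j) := ZMod.nontrivial_iff.2 (hP j hj).1.one_lt.ne'
      rw [e2, MulChar.map_zero, sub_zero, E_norm, mul_one]
      exact ha j
    · intro l hl hlj
      rw [dc_prime (hP l hl).1 (hP j hj).1 hlj, sub_self, mul_zero]
    · exact fun h => absurd hj h
  have h2 : (∑ j ∈ P, S j) ^ 4 ≤ 48 * (N : ℝ) ^ 7 := by
    have h3 := fourth N P hP χ hχ e he a ha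
    rcases P.eq_empty_or_nonempty with hPe | hPne
    · simp only [hPe]
      simp only [sum_empty, ne_eq, OfNat.ofNat_ne_zero, not_false_eq_true, zero_pow]
      positivity
    have h4 : (∑ n ∈ P, S n) ^ (3 + 1) / (P.card : ℝ) ^ 3 ≤ ∑ n ∈ P, S n ^ (3 + 1) :=
      pow_sum_div_card_le_sum_pow (fun n _ => norm_nonneg _) 3
    have hc : (0 : ℝ) < (P.card : ℝ) ^ 3 := by
      have : 0 < P.card := hPne.card_pos
      positivity
    rw [div_le_iff₀ hc] at h4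
    refine h4.trans ?_
    calc (∑ n ∈ P, S n ^ (3 + 1)) * (P.card : ℝ) ^ 3 ≤ (48 * (N : ℝ) ^ 4) * (N : ℝ) ^ 3 :=
          mul_le_mul h3 (pow_le_pow_left₀ (Nat.cast_nonneg _) hPNr 3) (by positivity) (by positivity)
      _ = 48 * (N : ℝ) ^ 7 := by ring
  have h5 : ∑ j ∈ P, S j ≤ (48 * (N : ℝ) ^ 7) ^ (1 / 4 : ℝ) := by
    have h0 : 0 ≤ ∑ j ∈ P, S j := sum_nonneg fun _ _ => norm_nonneg _
    have h6 : ((∑ j ∈ P, S j) ^ 4) ^ (1 / 4 : ℝ) = ∑ j ∈ P, S j := by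
      rw [← Real.rpow_natCast, ← Real.rpow_mul h0]
      norm_num
    rw [← h6]
    exact Real.rpow_le_rpow (by positivity) h2 (by norm_num)
  refine (sum_le_sum h1).trans ?_
  rw [sum_add_distrib, sum_const, nsmul_eq_mul, mul_one]
  exact add_le_add h5 hPNr

end

end Pool.Agent.Q315.FM
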