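import Pool.Agent.Q315.FM.Chain
import Pool.Agent.Q315.FM.Graph

/-!
# Infinite Ramsey subsets and the tame Fontaine-Mazur property
-/

set_option autoImplicit false

namespace Pool.Agent.Q315.FM

open Finset

/-- the infinite Ramsey theorem for pairs -/
theorem ramsey {C : Type} [Finite C] (Q : Set ℕ) (hQ : Q.Infinite) (c : ℕ → ℕ → C) :
    ∃ P : Set ℕ, P ⊆ Q ∧ P.Infinite ∧ ∃ a, ∀ x ∈ P, ∀ y ∈ P, x < y → c x y = a := by
  classical
  have hne : (Filter.cofinite ⊓ Filter.principal Q : Filter ℕ).NeBot := Filter.cofinite_inf_principal_neBot_iff.2 hQ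
  set U : Ultrafilter ℕ := Ultrafilter.of (Filter.cofinite ⊓ Filter.principal Q) with hU
  have hle : (U : Filter ℕ) ≤ Filter.cofinite ⊓ Filter.principal Q := Ultrafilter.of_le _
  have hUQ : Q ∈ (U : Filter ℕ) := hle (Filter.mem_inf_of_right (Filter.mem_principal_self Q))
  have hUc : ∀ s : Set ℕ, s.Finite → sᶜ ∈ (U : Filter ℕ) := fun s hs =>
    hle (Filter.mem_inf_of_left hs.compl_mem_cofinite)
  have hcol : ∀ f : ℕ → C, ∃ a, {y | f y = a} ∈ (U : Filter ℕ) := by
    intro f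
    have h1 : (⋃ a ∈ (Set.univ : Set C), {y | f y = a}) ∈ (U : Filter ℕ) := by
      convert Filter.univ_mem
      ext y
      simp
    have h2 := (Ultrafilter.finite_biUnion_mem_iff Set.finite_univ).1 h1
    obtain ⟨a, _, ha⟩ := h2
    exact ⟨a, ha⟩
  choose d hd using fun x => hcol (c x)
  obtain ⟨a, ha⟩ := hcol d
  obtain ⟨f, hf1, hf2⟩ := exists_seq_of_forall_finset_exists (fun x => x ∈ Q ∧ d x = a) (fun x y => x < y ∧ c x y = a) (by
    intro s hs
    have h1 : (Q ∩ {x | d x = a} ∩ ⋂ x ∈ s, ({y | c x y = a} ∩ {y | y ≤ x}ᶜ)) ∈ (U : Filter ℕ) := by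
      refine Filter.inter_mem (Filter.inter_mem hUQ ha) ?_
      rw [Filter.biInter_finset_mem]
      intro x hx
      refine Filter.inter_mem ?_ (hUc _ (Set.finite_Iic x))
      have := hd x
      rwa [(hs x hx).2] at this
    obtain ⟨y, ⟨hy1, hy2⟩, hy3⟩ := Filter.nonempty_of_mem h1
    refine ⟨y, ⟨hy1, hy2⟩, fun x hx => ?_⟩
    have h2 := Set.mem_iInter₂.1 hy3 x hx
    refine ⟨?_, h2.1⟩
    have := h2.2
    simp only [Set.mem_compl_iff, Set.mem_ofPred_eq, not_le] at this
    exact this)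
  have hmono : StrictMono f := fun m n hmn => (hf2 m n hmn).1
  refine ⟨Set.range f, ?_, Set.infinite_range_of_injective hmono.injective, a, ?_⟩
  · rintro _ ⟨n, rfl⟩
    exact (hf1 n).1
  · rintro _ ⟨m, rfl⟩ _ ⟨n, rfl⟩ h
    exact (hf2 m n (hmono.lt_iff_lt.1 h)).2

/-- consecutive elements -/
lemma chain_of_consec (J : Finset ℕ) (R : ℕ → ℕ → Prop) (hsymm : ∀ x y, R x y → R y x)
    (h : ∀ x ∈ J, ∀ y ∈ J, x < y → (∀ z ∈ J, z ≤ x ∨ y ≤ z) → R x y) :
    ∀ l ∈ J, ∀ l' ∈ J, Relation.ReflTransGen R l l' := by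
  classical
  have key : ∀ l' : ℕ, l' ∈ J → ∀ l ∈ J, l ≤ l' → Relation.ReflTransGen R l l' := by
    intro l'
    induction l' using Nat.strong_induction_on with
    | _ l' ih =>
      intro hl' l hl hll
      rcases eq_or_lt_of_le hll with heq | hlt
      · rw [heq]
      set X := J.filter (fun z => z < l') with hX
      have hXne : X.Nonempty := ⟨l, mem_filter.2 ⟨hl, hlt⟩⟩
      set z := X.max' hXne with hz
      have hzX : z ∈ X := X.max'_mem hXne
      rw [hX, mem_filter] at hzX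
      have hlz : l ≤ z := X.le_max' l (mem_filter.2 ⟨hl, hlt⟩)
      refine (ih z hzX.2 hzX.1 l hl hlz).tail (h z hzX.1 l' hl' hzX.2 fun y hy => ?_)
      by_contra hcon
      push Not at hcon
      have : y ≤ z := X.le_max' y (mem_filter.2 ⟨hy, hcon.2⟩)
      omega
  intro l hl l' hl'
  rcases le_total l l' with hle | hle
  · exact key l' hl' l hl hle
  · have : Std.Symm R := ⟨hsymm⟩
    exact Relation.ReflTransGen.stdSymm.symm _ _ (key l hl l' hl' hle)

/-- The reduction of the tame Fontaine-Mazur property to linear algebra, for a fixed choice of the characters. -/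
theorem tameFM_of_char (p : ℕ) [Fact p.Prime] (m n : ℕ) (hm : 2 < p ^ m) (T : Set ℕ)
    (χ : ∀ j : ℕ, (ZMod j)ˣ →* Multiplicative (ZMod p)) (hχ : ∀ l : ℕ, l.Prime → p ∣ l - 1 → ∃ x, χ l x ≠ 1)
    (h : ∀ T0 : Finset ℕ, (∀ l ∈ T0, l ∈ T ∧ l.Prime ∧ l ≠ p ∧ p ^ m ∣ l - 1 ∧ ¬ p ^ (m + 1) ∣ l - 1) →
        ∀ J ⊆ T0, J.Nonempty → Pool.Agent.TH831.NA.NoSol n (lk χ) (fun l => (((l - 1) / p ^ m : ℕ) : ZMod p)) J) :
    TameFM p m n T := by
  classical
  intro S hS hST A _ _ _ _ hA hpA ρ hρ hur hI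
  refine main p m n hm S hS χ (fun l hl => hχ l (hS l hl).1) ?_ A hA hpA ρ hρ hur hI
  refine h _ fun l hl => ?_
  rw [Finset.mem_filter] at hl
  exact ⟨hST l hl.1 hl.2, (hS l hl.1).1, (hS l hl.1).2.1, hl.2, (hS l hl.1).2.2⟩

/-- there is a choice of the characters -/
lemma exists_chars (p : ℕ) [Fact p.Prime] : ∃ χ : ∀ j : ℕ, (ZMod j)ˣ →* Multiplicative (ZMod p),
    ∀ l : ℕ, l.Prime → p ∣ l - 1 → ∃ x, χ l x ≠ 1 := by
  classical
  refine ⟨fun j => if hj : j.Prime ∧ p ∣ j - 1 then (exists_char p j hj.1 hj.2).choose else 1, fun l hl hpl => ?_⟩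
  have := (exists_char p l hl hpl).choose_spec
  simp only
  rw [dif_pos ⟨hl, hpl⟩]
  exact this

open Pool.Agent.TH831.NA in
/-- **Row-connected sets.** -/
theorem noSol_chain {p : ℕ} [Fact p.Prime] {n : ℕ} (hn : n < p) {lam : ℕ → ℕ → ZMod p} {u w t : ℕ → ZMod p} {J : Finset ℕ}
    (hJ : J.Nonempty) (hu : ∀ l ∈ J, u l ≠ 0) (hsym : ∀ l ∈ J, ∀ j ∈ J, w l * lam l j = w j * lam j l)
    (hadj : ∀ l ∈ J, ∀ l' ∈ J, Relation.ReflTransGen (fun x y => x ∈ J ∧ y ∈ J ∧ ∀ j ∈ J, j ≠ x → j ≠ y →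
      (lam x j - t x * (w j * u j)) * (u x)⁻¹ = (lam y j - t y * (w j * u j)) * (u y)⁻¹) l l') :
    NoSol n lam u J := by
  classical
  intro K iK iA M hM h
  have h1 := rel_shift h hsym t
  -- the base change to the algebraic closure
  let K' := AlgebraicClosure K
  have hchar : CharP K' p := by
    have := ((algebraMap K K').comp (algebraMap (ZMod p) K)).injective
    exact (RingHom.charP_iff _ this p).1 (ZMod.charP p)
  let a : ZMod p →+* K' := (algebraMap K K').comp (algebraMap (ZMod p) K)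
  let μ : ℕ → ℕ → K' := fun l j => a ((lam l j - t l * (w j * u j)) * (u l)⁻¹)
  let F : Matrix (Fin n) (Fin n) K →+* Module.End K' (Fin n → K') :=
    ((Matrix.toLinAlgEquiv' : Matrix (Fin n) (Fin n) K' ≃ₐ[K'] _) : _ →+* _).comp (algebraMap K K').mapMatrix
  have hF : ∀ (c : K) X, F (c • X) = algebraMap K K' c • F X := by
    intro c X
    have e1 : (algebraMap K K').mapMatrix (c • X) = algebraMap K K' c • (algebraMap K K').mapMatrix X := by
      ext i j
      simp
    simp only [F, RingHom.comp_apply, e1]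
    exact map_smul (Matrix.toLinAlgEquiv' : Matrix (Fin n) (Fin n) K' ≃ₐ[K'] _) _ _
  have hF' : ∀ (c : ZMod p) X, F (c • X) = a c • F X := by
    intro c X
    rw [← algebraMap_smul K c X, hF]
    rfl
  have hFinj : Function.Injective F := by
    intro X Y hXY
    have e1 := (Matrix.toLinAlgEquiv' : Matrix (Fin n) (Fin n) K' ≃ₐ[K'] _).injective hXY
    ext i j
    have e2 := congrFun (congrFun e1 i) j
    simpa using e2
  have hT0 : ∀ l ∈ J, F (M l) = 0 := by
    refine chain_zero (Fact.out : p.Prime) J μ ?_ n (Fin n → K') (Module.finrank_fin_fun K') hn (fun l => F (M l)) ?_ ?_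
    · intro l hl l' hl'
      refine Relation.ReflTransGen.mono ?_ _ _ (hadj l hl l' hl')
      intro x y hxy
      exact ⟨hxy.1, hxy.2.1, fun j hj hjx hjy => congrArg a (hxy.2.2 j hj hjx hjy)⟩
    · intro l hl
      exact (hM l hl).1.map F
    · intro l hl
      have h2 := congrArg F (h1 l hl)
      rw [hF', map_sum] at h2
      have h3 : ∀ j ∈ J, F ((lam l j - t l * (w j * u j)) • (M j * M l - M l * M j)) =
          a (u l) • (μ l j • (F (M j) * F (M l) - F (M l) * F (M j))) := by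
        intro j _
        have e2 : a (u l) * μ l j = a (lam l j - t l * (w j * u j)) := by
          show a (u l) * a ((lam l j - t l * (w j * u j)) * (u l)⁻¹) = _
          rw [← map_mul, mul_comm (u l), mul_assoc, inv_mul_cancel₀ (hu l hl), mul_one]
        rw [hF', smul_smul, e2, map_sub F, map_mul F, map_mul F]
      rw [sum_congr rfl h3, ← smul_sum] at h2
      have hau : a (u l) ≠ 0 := (map_ne_zero a).2 (hu l hl)
      have h4 := smul_right_injective _ hau h2
      refine Eq.trans ?_ h4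
      rw [sum_mul, mul_sum, ← sum_sub_distrib]
      refine sum_congr rfl fun j _ => ?_
      rw [smul_mul_assoc, mul_smul_comm, smul_sub]
  obtain ⟨l, hl⟩ := hJ
  refine (hM l hl).2 (hFinj ?_)
  rw [hT0 l hl, map_zero]

end Pool.Agent.Q315.FM
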