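import Pool.Agent.Q315.FM.Ord

/-!
# Equidistribution of the rows of power residue symbols
-/

set_option autoImplicit false

namespace Pool.Agent.Q315.FM

open Finset

section
variable {p : ℕ} [hp : Fact p.Prime]

/-- the row of `a` with respect to the tuple `s` -/
noncomputable def row (χ : ∀ j : ℕ, (ZMod j)ˣ →* Multiplicative (ZMod p)) {k : ℕ} (s : Fin k → ℕ) (a : ℕ) : Fin k → ZMod p :=
  fun j => lk χ a (s j)

/-- the character of the row -/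
noncomputable def RS (χ : ∀ j : ℕ, (ZMod j)ˣ →* Multiplicative (ZMod p)) {k : ℕ} (e : Fin k → ZMod p) (s : Fin k → ℕ) (a : ℕ) : ℂ :=
  ∏ j, E (e j * lk χ a (s j))

lemma RS_update (χ : ∀ j : ℕ, (ZMod j)ˣ →* Multiplicative (ZMod p)) {k : ℕ} (e : Fin k → ZMod p) (s : Fin k → ℕ) (i : Fin k)
    (b a : ℕ) : RS χ e (Function.update s i b) a = (∏ j ∈ univ.erase i, E (e j * lk χ a (s j))) * E (e i * lk χ a b) := by
  unfold RS
  rw [← mul_prod_erase univ _ (mem_univ i), Function.update_self, mul_comm]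
  congr 1
  refine prod_congr rfl fun j hj => ?_
  rw [Function.update_of_ne (mem_erase.1 hj).1]

/-- the sum over all tuples -/
lemma sum_RS (N : ℕ) (P : Finset ℕ) (hP : ∀ l ∈ P, l.Prime ∧ l ≤ N) (χ : ∀ j : ℕ, (ZMod j)ˣ →* Multiplicative (ZMod p))
    (hχ : ∀ j ∈ P, ∃ x, χ j x ≠ 1) (𝒜 : Finset ℕ) (hA : 𝒜 ⊆ P) {k : ℕ} (e : Fin k → ZMod p) (he : e ≠ 0) :
    (P.card : ℝ) * ∑ s ∈ tup k P, ‖∑ a ∈ 𝒜, RS χ e s a‖ ≤ (P.card : ℝ) ^ k * bo N := by
  classical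
  obtain ⟨i, hi⟩ := Function.ne_iff.1 he
  rw [← avg k P i (fun s => ‖∑ a ∈ 𝒜, RS χ e s a‖)]
  have h1 : ∀ s ∈ tup k P, ∑ b ∈ P, ‖∑ a ∈ 𝒜, RS χ e (Function.update s i b) a‖ ≤ bo N := by
    intro s _
    set c : ℕ → ℂ := fun a => if a ∈ 𝒜 then ∏ j ∈ univ.erase i, E (e j * lk χ a (s j)) else 0 with hc
    have hc1 : ∀ a, ‖c a‖ ≤ 1 := by
      intro a
      rw [hc]
      simp only
      split_ifs
      · rw [norm_prod]
        exact (prod_eq_one fun j _ => E_norm _).le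
      · rw [norm_zero]; exact zero_le_one
    have h2 := bilin N P hP χ hχ (e i) hi c hc1
    refine le_trans (le_of_eq (sum_congr rfl fun b _ => ?_)) h2
    congr 1
    rw [← sum_subset hA (fun a _ haA => by rw [hc]; simp only; rw [if_neg haA, zero_mul])]
    refine sum_congr rfl fun a haA => ?_
    rw [RS_update, hc]
    simp only
    rw [if_pos haA]
  refine (sum_le_sum h1).trans (le_of_eq ?_)
  rw [sum_const, nsmul_eq_mul, card_tup]
  push_cast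
  ring

lemma prod_E_sum {k : ℕ} (x : Fin k → ZMod p) :
    ∑ e : Fin k → ZMod p, ∏ j, E (e j * x j) = if x = 0 then (p : ℂ) ^ k else 0 := by
  classical
  have h1 : ∑ e : Fin k → ZMod p, ∏ j, E (e j * x j) = ∏ j, ∑ z : ZMod p, E (z * x j) := by
    rw [prod_univ_sum, Fintype.piFinset_univ]
  rw [h1]
  simp only [E_sum]
  split_ifs with h
  · rw [h]
    simp
  · obtain ⟨i, hi⟩ := Function.ne_iff.1 h
    exact prod_eq_zero (mem_univ i) (if_neg hi)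

/-- **The Fourier expansion.** -/
lemma fourier (χ : ∀ j : ℕ, (ZMod j)ˣ →* Multiplicative (ZMod p)) {k : ℕ} (s : Fin k → ℕ) (𝒜 : Finset ℕ)
    (R : Finset (Fin k → ZMod p)) :
    |((𝒜.filter fun a => row χ s a ∈ R).card : ℝ) - (R.card : ℝ) / (p : ℝ) ^ k * 𝒜.card| ≤
      ∑ e ∈ univ.erase (0 : Fin k → ZMod p), ‖∑ a ∈ 𝒜, RS χ e s a‖ := by
  classical
  have hp0 : (p : ℂ) ^ k ≠ 0 := pow_ne_zero _ (by exact_mod_cast hp.out.ne_zero)
  have hp1 : (0 : ℝ) < (p : ℝ) ^ k := by have := hp.out.pos; positivity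
  have h1 : (((𝒜.filter fun a => row χ s a ∈ R).card : ℝ) : ℂ) * (p : ℂ) ^ k =
      ∑ e : Fin k → ZMod p, (∑ w ∈ R, ∏ j, E (-(e j * w j))) * ∑ a ∈ 𝒜, RS χ e s a := by
    have e1 : ∀ a ∈ 𝒜, (if row χ s a ∈ R then (p : ℂ) ^ k else 0) = ∑ w ∈ R, ∑ e : Fin k → ZMod p, ∏ j, E (e j * (row χ s a - w) j) := by
      intro a _
      simp only [prod_E_sum, sub_eq_zero]
      rw [sum_ite_eq R (row χ s a)]
    have e2 : (((𝒜.filter fun a => row χ s a ∈ R).card : ℝ) : ℂ) * (p : ℂ) ^ k = ∑ a ∈ 𝒜, if row χ s a ∈ R then (p : ℂ) ^ k else 0 := by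
      rw [← sum_filter, sum_const, nsmul_eq_mul]
      push_cast
      rfl
    rw [e2, sum_congr rfl e1]
    simp only [sum_mul_sum]
    rw [sum_comm' (t' := R) (s' := fun _ => 𝒜) (by intro x y; tauto)]
    rw [sum_comm (s := univ) (t := R)]
    refine sum_congr rfl fun w _ => ?_
    rw [sum_comm]
    refine sum_congr rfl fun e _ => sum_congr rfl fun a _ => ?_
    unfold RS
    rw [← prod_mul_distrib]
    refine prod_congr rfl fun j _ => ?_
    rw [← E_add]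
    congr 1
    rw [Pi.sub_apply]
    unfold row
    ring
  have h2 : (∑ w ∈ R, ∏ j, E (-((0 : Fin k → ZMod p) j * w j))) * ∑ a ∈ 𝒜, RS χ (0 : Fin k → ZMod p) s a = R.card * 𝒜.card := by
    unfold RS
    simp [E_zero]
  have h3 : ((((𝒜.filter fun a => row χ s a ∈ R).card : ℝ) - (R.card : ℝ) / (p : ℝ) ^ k * 𝒜.card : ℝ) : ℂ) * (p : ℂ) ^ k =
      ∑ e ∈ univ.erase (0 : Fin k → ZMod p), (∑ w ∈ R, ∏ j, E (-(e j * w j))) * ∑ a ∈ 𝒜, RS χ e s a := by
    rw [← add_sum_erase univ _ (mem_univ (0 : Fin k → ZMod p)), h2] at h1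
    push_cast at h1 ⊢
    rw [sub_mul, h1, div_mul_eq_mul_div, div_mul_cancel₀ _ hp0]
    ring
  have h4 := congrArg norm h3
  rw [norm_mul, norm_pow, Complex.norm_natCast, Complex.norm_real, Real.norm_eq_abs] at h4
  have h5 : ‖∑ e ∈ univ.erase (0 : Fin k → ZMod p), (∑ w ∈ R, ∏ j, E (-(e j * w j))) * ∑ a ∈ 𝒜, RS χ e s a‖ ≤
      R.card * ∑ e ∈ univ.erase (0 : Fin k → ZMod p), ‖∑ a ∈ 𝒜, RS χ e s a‖ := by
    refine (norm_sum_le _ _).trans ?_
    rw [mul_sum]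
    apply sum_le_sum
    intro e _
    rw [norm_mul]
    apply mul_le_mul_of_nonneg_right _ (norm_nonneg _)
    refine (norm_sum_le _ _).trans ?_
    refine (sum_le_sum (g := fun _ => (1 : ℝ)) fun w _ => ?_).trans (le_of_eq ?_)
    · rw [norm_prod]
      exact (prod_eq_one fun j _ => E_norm _).le
    · rw [sum_const, nsmul_eq_mul, mul_one]
  have hR : (R.card : ℝ) ≤ (p : ℝ) ^ k := by
    have := card_le_univ R
    rw [Fintype.card_fun, ZMod.card, Fintype.card_fin] at this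
    exact_mod_cast this
  have h6 : |((𝒜.filter fun a => row χ s a ∈ R).card : ℝ) - (R.card : ℝ) / (p : ℝ) ^ k * 𝒜.card| * (p : ℝ) ^ k ≤
      (∑ e ∈ univ.erase (0 : Fin k → ZMod p), ‖∑ a ∈ 𝒜, RS χ e s a‖) * (p : ℝ) ^ k := by
    rw [h4]
    refine h5.trans ?_
    rw [mul_comm]
    exact mul_le_mul_of_nonneg_left hR (sum_nonneg fun _ _ => norm_nonneg _)
  exact le_of_mul_le_mul_right h6 hp1

/-- **Equidistribution of rows.** -/
theorem rows (N : ℕ) (P : Finset ℕ) (hP : ∀ l ∈ P, l.Prime ∧ l ≤ N) (χ : ∀ j : ℕ, (ZMod j)ˣ →* Multiplicative (ZMod p))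
    (hχ : ∀ j ∈ P, ∃ x, χ j x ≠ 1) (𝒜 : Finset ℕ) (hA : 𝒜 ⊆ P) {k : ℕ} (R : (Fin k → ℕ) → Finset (Fin k → ZMod p)) :
    (P.card : ℝ) * ∑ s ∈ tup k P, |((𝒜.filter fun a => row χ s a ∈ R s).card : ℝ) - ((R s).card : ℝ) / (p : ℝ) ^ k * 𝒜.card| ≤
      (p : ℝ) ^ k * ((P.card : ℝ) ^ k * bo N) := by
  classical
  have h1 : ∑ s ∈ tup k P, |((𝒜.filter fun a => row χ s a ∈ R s).card : ℝ) - ((R s).card : ℝ) / (p : ℝ) ^ k * 𝒜.card| ≤
      ∑ e ∈ univ.erase (0 : Fin k → ZMod p), ∑ s ∈ tup k P, ‖∑ a ∈ 𝒜, RS χ e s a‖ := by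
    rw [sum_comm]
    exact sum_le_sum fun s _ => fourier χ s 𝒜 (R s)
  refine (mul_le_mul_of_nonneg_left h1 (Nat.cast_nonneg _)).trans ?_
  rw [mul_sum]
  have h0 : 0 ≤ bo N := by
    unfold bo
    positivity
  calc ∑ e ∈ univ.erase (0 : Fin k → ZMod p), (P.card : ℝ) * ∑ s ∈ tup k P, ‖∑ a ∈ 𝒜, RS χ e s a‖ ≤
        ∑ _e ∈ univ.erase (0 : Fin k → ZMod p), (P.card : ℝ) ^ k * bo N :=
        sum_le_sum fun e he => sum_RS N P hP χ hχ 𝒜 hA e (mem_erase.1 he).1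
    _ ≤ ∑ _e : Fin k → ZMod p, (P.card : ℝ) ^ k * bo N :=
        sum_le_sum_of_subset_of_nonneg (erase_subset _ _) fun _ _ _ => by positivity
    _ = (p : ℝ) ^ k * ((P.card : ℝ) ^ k * bo N) := by
        rw [sum_const, nsmul_eq_mul, card_univ, Fintype.card_fun, ZMod.card, Fintype.card_fin]
        push_cast
        rfl

end

end Pool.Agent.Q315.FM
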